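import Mathlib

open Cardinal Ordinal Set

universe u

namespace Pool.Agent.SG

/-- A partial order is a tree if the set of predecessors of every node is well-ordered. -/
def IsTree (T : Type u) [PartialOrder T] : Prop :=
  ∀ t : T, IsWellOrder {s : T // s < t} (· < ·)

/-- The height of a node of a tree: the order type of its set of predecessors. -/
noncomputable def nodeHeight {T : Type u} [PartialOrder T] (h : IsTree T) (t : T) : Ordinal.{u} :=
  @Ordinal.type {s : T // s < t} (· < ·) (h t)

/-- There is a `κ`-Souslin tree: a tree of height `κ` (a node of height `α` exists exactly for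
`α < κ`) with no chain of size `κ` and no antichain of size `κ`. -/
def HasSouslin (κ : Cardinal.{u}) : Prop :=
  ∃ (T : Type u) (_ : PartialOrder T) (h : IsTree T),
    (∀ α : Ordinal.{u}, (∃ t : T, nodeHeight h t = α) ↔ α < κ.ord) ∧
      (∀ C : Set T, IsChain (· ≤ ·) C → #C ≠ κ) ∧ (∀ A : Set T, IsAntichain (· ≤ ·) A → #A ≠ κ)

theorem small_biUnion {κ : Cardinal.{u}} (hκ : κ.IsRegular) {α β : Type u} {S : Set α}
    {f : α → Set β} (hS : #S < κ) (hf : ∀ x ∈ S, #(f x) < κ) : #(⋃ x ∈ S, f x : Set β) < κ :=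
  (card_biUnion_lt_iff_forall_of_isRegular hκ hS).2 hf

theorem small_union {κ : Cardinal.{u}} (hκ : κ.IsRegular) {β : Type u} {S T : Set β}
    (hS : #S < κ) (hT : #T < κ) : #(S ∪ T : Set β) < κ :=
  lt_of_le_of_lt (mk_union_le S T) (add_lt_of_lt hκ.aleph0_le hS hT)

theorem small_singleton {κ : Cardinal.{u}} (hκ : κ.IsRegular) {β : Type u} (x : β) :
    #({x} : Set β) < κ := by
  rw [mk_singleton]
  exact lt_of_lt_of_le one_lt_aleph0 hκ.aleph0_le

theorem ne_of_subset {κ : Cardinal.{u}} {β : Type u} {P : Set β → Prop}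
    (hP : ∀ S, P S → ∀ T, T ⊆ S → P T) (h : ∀ S, P S → #S ≠ κ) {S : Set β} (hS : P S) :
    #S < κ := by
  by_contra hc
  obtain ⟨p, hp, hpc⟩ := le_mk_iff_exists_subset.1 (not_lt.1 hc)
  exact h p (hP S hS p hp) hpc

section Order

variable {κ : Cardinal.{u}} {V : Type u} [LinearOrder V]

theorem small_Iic (hκ : κ.IsRegular) (hs : ∀ a : V, #(Iio a) < κ) (a : V) : #(Iic a) < κ := by
  have : (Iic a : Set V) ⊆ Iio a ∪ {a} := by
    intro x hx
    rcases lt_or_eq_of_le (show x ≤ a from hx) with h | h
    · exact Or.inl h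
    · exact Or.inr h
  exact lt_of_le_of_lt (mk_le_mk_of_subset this) (small_union hκ (hs a) (small_singleton hκ a))

/-- above a small set there is an element of any set of size `κ` outside another small set -/
theorem exists_above (hκ : κ.IsRegular) (hs : ∀ a : V, #(Iio a) < κ) {A S T : Set V}
    (hA : #A = κ) (hS : #S < κ) (hT : #T < κ) : ∃ x ∈ A, x ∉ T ∧ ∀ y ∈ S, y < x := by
  by_contra hc
  push Not at hc
  have hsub : A ⊆ T ∪ ⋃ y ∈ S, Iic y := by
    intro x hx
    by_cases hxT : x ∈ T
    · exact Or.inl hxT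
    · obtain ⟨y, hy, hyx⟩ := hc x hx hxT
      exact Or.inr (mem_iUnion₂.2 ⟨y, hy, hyx⟩)
  have := lt_of_le_of_lt (mk_le_mk_of_subset hsub)
    (small_union hκ hT (small_biUnion hκ hS fun y _ => small_Iic hκ hs y))
  exact absurd hA this.ne

variable [WellFoundedLT V]

/-- greedy choice -/
theorem greedy (hκ : κ.IsRegular) (hs : ∀ a : V, #(Iio a) < κ) (Bad : Set V → Set V)
    (hBad : ∀ S : Set V, #S < κ → #(Bad S) < κ) {A : Set V} (hA : #A = κ) :
    ∃ B ⊆ A, #B = κ ∧ ∀ x ∈ B, x ∉ Bad (B ∩ Iio x) := by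
  classical
  let F : (x : V) → ((y : V) → y < x → Prop) → Prop :=
    fun x ih => x ∈ A ∧ x ∉ Bad {y | ∃ h : y < x, ih y h}
  let P : V → Prop := (wellFounded_lt (α := V)).fix F
  have hP : ∀ x, P x ↔ x ∈ A ∧ x ∉ Bad ({y | P y} ∩ Iio x) := by
    intro x
    have h1 : P x = F x (fun y _ => P y) := (wellFounded_lt (α := V)).fix_eq F x
    rw [h1]
    have h2 : {y | ∃ _ : y < x, P y} = {y | P y} ∩ Iio x := by
      ext y
      constructor
      · rintro ⟨h, hy⟩
        exact ⟨hy, h⟩
      · rintro ⟨hy, h⟩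
        exact ⟨h, hy⟩
    show (x ∈ A ∧ x ∉ Bad {y | ∃ _ : y < x, P y}) ↔ _
    rw [h2]
  have hsub : {y | P y} ⊆ A := fun x hx => ((hP x).1 hx).1
  refine ⟨{y | P y}, hsub, ?_, fun x hx => ((hP x).1 hx).2⟩
  by_contra hne
  have hlt : #{y | P y} < κ := lt_of_le_of_ne (hA ▸ mk_le_mk_of_subset hsub) hne
  obtain ⟨x, hxA, hxB, hx⟩ := exists_above hκ hs hA hlt (hBad _ hlt)
  have heq : {y | P y} ∩ Iio x = {y | P y} := inter_eq_left.2 fun y hy => hx y hy
  have : P x := (hP x).2 ⟨hxA, by rw [heq]; exact hxB⟩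
  exact lt_irrefl x (hx x this)

end Order

/-- a tree of size at least `κ` without chains and antichains of size `κ` is `κ`-Souslin -/
theorem hasSouslin_of {κ : Cardinal.{u}} (hκ : κ.IsRegular) (T : Type u) [PartialOrder T]
    (h : IsTree T) (hT : κ ≤ #T) (hC : ∀ C : Set T, IsChain (· ≤ ·) C → #C ≠ κ)
    (hA : ∀ A : Set T, IsAntichain (· ≤ ·) A → #A ≠ κ) : HasSouslin κ := by
  classical
  refine ⟨T, inferInstance, h, ?_, hC, hA⟩
  have key : ∀ (t : T) (s : {s : T // s < t}),
      nodeHeight h s.1 = @Ordinal.typein {s : T // s < t} (· < ·) (h t) s := by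
    intro t s
    have := h t
    have := h s.1
    have e : ((· < ·) : {r : T // r < s.1} → {r : T // r < s.1} → Prop) ≃r
        Subrel ((· < ·) : {r : T // r < t} → {r : T // r < t} → Prop) (fun r => r < s) :=
      { toFun := fun r => ⟨⟨r.1, r.2.trans s.2⟩, r.2⟩
        invFun := fun r => ⟨r.1.1, r.2⟩
        left_inv := fun r => rfl
        right_inv := fun r => rfl
        map_rel_iff' := Iff.rfl }
    have := e.ordinalType_congr
    exact this
  have mono : ∀ s t : T, s < t → nodeHeight h s < nodeHeight h t := by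
    intro s t hst
    have := h t
    rw [key t ⟨s, hst⟩]
    exact typein_lt_type _ _
  have hchain : ∀ t : T, IsChain (· ≤ ·) {s : T | s < t} := by
    intro t x hx y hy hxy
    have := h t
    rcases trichotomous_of (· < ·) (⟨x, hx⟩ : {s : T // s < t}) ⟨y, hy⟩ with h1 | h1 | h1
    · exact Or.inl (le_of_lt h1)
    · exact absurd (congrArg Subtype.val h1) hxy
    · exact Or.inr (le_of_lt h1)
  have hlt : ∀ t : T, nodeHeight h t < κ.ord := by
    intro t
    rw [lt_ord]
    have := h t
    have h1 : (nodeHeight h t).card = #{s : T | s < t} := rfl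
    rw [h1]
    exact ne_of_subset (P := fun C => IsChain (· ≤ ·) C) (fun S hS U hU => hS.mono hU) hC
      (hchain t)
  intro α
  refine ⟨?_, fun hα => ?_⟩
  · rintro ⟨t, rfl⟩
    exact hlt t
  · have hex : ∃ t : T, α ≤ nodeHeight h t := by
      by_contra hc
      push Not at hc
      have hcov : (univ : Set T) ⊆ ⋃ i : α.ToType, {t : T | nodeHeight h t =
          Ordinal.typein (α := α.ToType) (· < ·) i} := by
        intro t _
        have ht := hc t
        have : nodeHeight h t < Ordinal.type (α := α.ToType) (· < ·) := by simpa using ht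
        obtain ⟨i, hi⟩ := Ordinal.typein_surj (α := α.ToType) (· < ·) this
        exact mem_iUnion.2 ⟨i, hi.symm⟩
      have hsm : #(⋃ i : α.ToType, {t : T | nodeHeight h t =
          Ordinal.typein (α := α.ToType) (· < ·) i} : Set T) < κ := by
        refine (card_iUnion_lt_iff_forall_of_isRegular hκ ?_).2 fun i => ?_
        · rw [mk_toType]
          exact lt_ord.1 hα
        · refine ne_of_subset (P := fun C => IsAntichain (· ≤ ·) C)
            (fun S hS U hU => hS.subset hU) hA ?_
          intro x hx y hy hxy hle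
          have : x < y := lt_of_le_of_ne hle hxy
          have := mono x y this
          rw [hx, hy] at this
          exact lt_irrefl _ this
      have := lt_of_le_of_lt (mk_le_mk_of_subset hcov) hsm
      rw [mk_univ] at this
      exact absurd hT (not_le.2 this)
    obtain ⟨t, ht⟩ := hex
    rcases lt_or_eq_of_le ht with h1 | h1
    · have := h t
      obtain ⟨s, hs⟩ := Ordinal.typein_surj ((· < ·) : {s : T // s < t} → {s : T // s < t} → Prop)
        h1
      exact ⟨s.1, by rw [key t s, hs]⟩
    · exact ⟨t, h1.symm⟩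

end Pool.Agent.SG
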