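import Pool.Agent.SG.Elim

open Cardinal Set Relation

universe u v

namespace Pool.Agent.SG

/-- no induced path with four vertices -/
def P4F {W : Type v} (H : SimpleGraph W) : Prop :=
  ∀ a b c d : W, H.Adj a b → H.Adj b c → H.Adj c d → H.Adj a c ∨ H.Adj b d ∨ H.Adj a d

theorem P4F.compl {W : Type v} {H : SimpleGraph W} (h : P4F H) : P4F Hᶜ := by
  intro a b c d hab hbc hcd
  by_contra hc
  push Not at hc
  obtain ⟨hac, hbd, had⟩ := hc
  rw [SimpleGraph.compl_adj] at hab hbc hcd hac hbd had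
  have hne1 : a ≠ c := by
    rintro rfl
    exact had ⟨hcd.1, hcd.2⟩
  have hne2 : b ≠ d := by
    rintro rfl
    exact had ⟨hab.1, hab.2⟩
  have hne3 : a ≠ d := by
    rintro rfl
    exact hac ⟨hcd.1.symm, fun h => hcd.2 h.symm⟩
  have hac' : H.Adj a c := by
    by_contra h'
    exact hac ⟨hne1, h'⟩
  have hbd' : H.Adj b d := by
    by_contra h'
    exact hbd ⟨hne2, h'⟩
  have had' : H.Adj a d := by
    by_contra h'
    exact had ⟨hne3, h'⟩
  rcases h b d a c hbd' had'.symm hac' with h1 | h1 | h1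
  · exact hab.2 h1.symm
  · exact hcd.2 h1.symm
  · exact hbc.2 h1

/-- a partition in two completely joined or completely unjoined parts -/
def Split {W : Type v} (H : SimpleGraph W) (F : Set W) : Prop :=
  ∃ S T : Set W, S.Nonempty ∧ T.Nonempty ∧ Disjoint S T ∧ S ∪ T = F ∧
    ((∀ s ∈ S, ∀ t ∈ T, H.Adj s t) ∨ (∀ s ∈ S, ∀ t ∈ T, ¬ H.Adj s t))

theorem Split.compl {W : Type v} {H : SimpleGraph W} {F : Set W} (h : Split Hᶜ F) :
    Split H F := by
  obtain ⟨S, T, hS, hT, hd, hu, h | h⟩ := h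
  · refine ⟨S, T, hS, hT, hd, hu, Or.inr ?_⟩
    intro s hs t ht hst
    exact ((SimpleGraph.compl_adj H s t).1 (h s hs t ht)).2 hst
  · refine ⟨S, T, hS, hT, hd, hu, Or.inl ?_⟩
    intro s hs t ht
    by_contra hc
    refine h s hs t ht ((SimpleGraph.compl_adj H s t).2 ⟨?_, hc⟩)
    rintro rfl
    exact disjoint_left.1 hd hs ht

theorem split_step {W : Type v} {H : SimpleGraph W} (hP : P4F H) {F S₀ T₀ : Set W} {v : W}
    (hv : v ∉ F) (hT₀ : T₀.Nonempty) (hd : Disjoint S₀ T₀) (hu : S₀ ∪ T₀ = F)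
    (h : ∀ s ∈ S₀, ∀ t ∈ T₀, ¬ H.Adj s t) {z : W} (hz : z ∈ S₀) (hvz : ¬ H.Adj v z) :
    Split H (insert v F) := by
  classical
  have hzF : z ∈ F := hu ▸ Or.inl hz
  let R : W → W → Prop := fun a b => H.Adj a b ∧ b ∈ F
  let S : Set W := {x | ReflTransGen R z x}
  have hSF : ∀ x ∈ S, x ∈ F := by
    intro x hx
    induction hx with
    | refl => exact hzF
    | tail _ h _ => exact h.2
  have hS₀ : ∀ x ∈ S, x ∈ S₀ := by
    intro x hx
    induction hx with
    | refl => exact hz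
    | @tail b c h1 h2 ih =>
      have h3 : c ∈ S₀ ∪ T₀ := hu ▸ h2.2
      rcases h3 with h3 | h3
      · exact h3
      · exact absurd h2.1 (h b ih c h3)
  have hcl : ∀ s ∈ S, ∀ t ∈ F, t ∉ S → ¬ H.Adj s t := by
    intro s hs t ht htS hst
    exact htS (ReflTransGen.tail hs ⟨hst, ht⟩)
  have hne : (F \ S).Nonempty := by
    obtain ⟨t, ht⟩ := hT₀
    exact ⟨t, hu ▸ Or.inr ht, fun hc => disjoint_left.1 hd (hS₀ t hc) ht⟩
  have hvS : v ∉ S := fun hc => hv (hSF v hc)
  by_cases hn : ∃ y ∈ S, H.Adj v y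
  · obtain ⟨y, hy, hvy⟩ := hn
    have key : ∀ x, ReflTransGen R z x → H.Adj v x →
        ∃ a ∈ S, ∃ b ∈ S, H.Adj a b ∧ ¬ H.Adj v a ∧ H.Adj v b := by
      intro x hx
      induction hx with
      | refl => exact fun h => absurd h hvz
      | @tail b c h1 h2 ih =>
        intro hc
        by_cases hb : H.Adj v b
        · exact ih hb
        · exact ⟨b, h1, c, h1.tail h2, h2.1, hb, hc⟩
    obtain ⟨a, ha, b, hb, hab, hva, hvb⟩ := key y hy hvy
    refine ⟨F \ S, insert v S, hne, ⟨v, Or.inl rfl⟩, ?_, ?_, Or.inr ?_⟩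
    · rw [disjoint_left]
      rintro x ⟨hx1, hx2⟩ (rfl | hx3)
      · exact hv hx1
      · exact hx2 hx3
    · ext x
      constructor
      · rintro (hx | hx | hx)
        · exact Or.inr hx.1
        · exact Or.inl hx
        · exact Or.inr (hSF x hx)
      · rintro (hx | hx)
        · exact Or.inr (Or.inl hx)
        · by_cases hxS : x ∈ S
          · exact Or.inr (Or.inr hxS)
          · exact Or.inl ⟨hx, hxS⟩
    · rintro w ⟨hw1, hw2⟩ t (rfl | ht) hwt
      · rcases hP w t b a hwt hvb hab.symm with h1 | h1 | h1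
        · exact hcl b hb w hw1 hw2 h1.symm
        · exact hva h1
        · exact hcl a ha w hw1 hw2 h1.symm
      · exact hcl t ht w hw1 hw2 hwt.symm
  · push Not at hn
    refine ⟨S, insert v (F \ S), ⟨z, ReflTransGen.refl⟩, ⟨v, Or.inl rfl⟩, ?_, ?_, Or.inr ?_⟩
    · rw [disjoint_left]
      rintro x hx (rfl | hx3)
      · exact hvS hx
      · exact hx3.2 hx
    · ext x
      constructor
      · rintro (hx | hx | hx)
        · exact Or.inr (hSF x hx)
        · exact Or.inl hx
        · exact Or.inr hx.1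
      · rintro (hx | hx)
        · exact Or.inr (Or.inl hx)
        · by_cases hxS : x ∈ S
          · exact Or.inl hxS
          · exact Or.inr (Or.inr ⟨hx, hxS⟩)
    · rintro s hs t (rfl | ht) hst
      · exact hn s hs hst.symm
      · exact hcl s hs t ht.1 ht.2 hst

theorem split_step' {W : Type v} {H : SimpleGraph W} (hP : P4F H) {F S T : Set W} {v : W}
    (hv : v ∉ F) (hS : S.Nonempty) (hT : T.Nonempty) (hd : Disjoint S T) (hu : S ∪ T = F)
    (h : ∀ s ∈ S, ∀ t ∈ T, ¬ H.Adj s t) : Split H (insert v F) := by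
  by_cases hz : ∀ z ∈ F, H.Adj v z
  · refine ⟨{v}, F, ⟨v, rfl⟩, ?_, ?_, rfl, Or.inl ?_⟩
    · obtain ⟨s, hs⟩ := hS
      exact ⟨s, hu ▸ Or.inl hs⟩
    · rw [disjoint_left]
      rintro x rfl hx
      exact hv hx
    · rintro s rfl t ht
      exact hz t ht
  · push Not at hz
    obtain ⟨z, hzF, hvz⟩ := hz
    have : z ∈ S ∪ T := hu ▸ hzF
    rcases this with h1 | h1
    · exact split_step hP hv hT hd hu h h1 hvz
    · exact split_step hP hv hS hd.symm (by rw [union_comm]; exact hu)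
        (fun s hs t ht hst => h t ht s hs hst.symm) h1 hvz

/-- **Seinsche's theorem**: a finite graph without induced paths with four vertices and with at
least two vertices is disconnected or has a disconnected complement -/
theorem seinsche {W : Type v} {H : SimpleGraph W} (hP : P4F H) {F : Set W} (hF : F.Finite) :
    F.Nontrivial → Split H F := by
  classical
  induction F, hF using Set.Finite.induction_on with
  | empty => intro h; exact absurd h not_nontrivial_empty
  | @insert v F hv hfin ih =>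
    intro hnt
    by_cases hF : F.Nontrivial
    · obtain ⟨S, T, hS, hT, hd, hu, h | h⟩ := ih hF
      · refine Split.compl (split_step' hP.compl hv hS hT hd hu ?_)
        intro s hs t ht hst
        exact ((SimpleGraph.compl_adj H s t).1 hst).2 (h s hs t ht)
      · exact split_step' hP hv hS hT hd hu h
    · have hsub : F.Subsingleton := not_nontrivial_iff.1 hF
      have hne : F.Nonempty := by
        by_contra hc
        rw [not_nonempty_iff_eq_empty] at hc
        rw [hc] at hnt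
        obtain ⟨x, hx, y, hy, hxy⟩ := hnt
        rcases hx with hx | hx
        · rcases hy with hy | hy
          · exact hxy (hx.trans hy.symm)
          · exact hy
        · exact hx
      obtain ⟨w, hw⟩ := hne
      refine ⟨{v}, F, ⟨v, rfl⟩, ⟨w, hw⟩, ?_, rfl, ?_⟩
      · rw [disjoint_left]
        rintro x rfl hx
        exact hv hx
      · by_cases hvw : H.Adj v w
        · left
          rintro s rfl t ht
          rw [hsub ht hw]
          exact hvw
        · right
          rintro s rfl t ht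
          rw [hsub ht hw]
          exact hvw

variable {κ : Cardinal.{u}} {V : Type u} {G : SimpleGraph V}

theorem Emb.union {W : Type v} {H : SimpleGraph W} {S T : Set W} {X Y A : Set V} {f g : W → V}
    (hf : Emb H G S X f) (hg : Emb H G T Y g) (hXA : X ⊆ A) (hYA : Y ⊆ A) (hST : Disjoint S T)
    (hXY : ∀ x ∈ X, ∀ y ∈ Y, x ≠ y)
    (hadj : ∀ s ∈ S, ∀ t ∈ T, (H.Adj s t ↔ G.Adj (f s) (g t))) :
    ∃ h, Emb H G (S ∪ T) A h := by
  classical
  have h1 : ∀ s ∈ S, (if s ∈ S then f s else g s) = f s := fun s hs => if_pos hs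
  have h2 : ∀ t ∈ T, (if t ∈ S then f t else g t) = g t :=
    fun t ht => if_neg (fun hc => disjoint_left.1 hST hc ht)
  refine ⟨fun w => if w ∈ S then f w else g w, ⟨?_, ?_, ?_⟩⟩
  · rintro s (hs | hs)
    · simp only [h1 s hs]
      exact hXA (hf.maps s hs)
    · simp only [h2 s hs]
      exact hYA (hg.maps s hs)
  · rintro s (hs | hs) t (ht | ht) hst
    · simp only [h1 s hs, h1 t ht] at hst
      exact hf.inj s hs t ht hst
    · simp only [h1 s hs, h2 t ht] at hst
      exact absurd hst (hXY _ (hf.maps s hs) _ (hg.maps t ht))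
    · simp only [h2 s hs, h1 t ht] at hst
      exact absurd hst.symm (hXY _ (hf.maps t ht) _ (hg.maps s hs))
    · simp only [h2 s hs, h2 t ht] at hst
      exact hg.inj s hs t ht hst
  · rintro s (hs | hs) t (ht | ht)
    · simp only [h1 s hs, h1 t ht]
      exact hf.adj s hs t ht
    · simp only [h1 s hs, h2 t ht]
      exact hadj s hs t ht
    · simp only [h2 s hs, h1 t ht]
      rw [H.adj_comm, G.adj_comm]
      exact hadj t ht s hs
    · simp only [h2 s hs, h2 t ht]
      exact hg.adj s hs t ht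

/-- embedding of finite graphs without induced paths with four vertices -/
theorem emb_of_cograph (hκ : κ.IsRegular)
    (hJ : ∀ A : Set V, #A = κ → ∃ X ⊆ A, ∃ Y ⊆ A, #X = κ ∧ #Y = κ ∧
      ∀ x ∈ X, ∀ y ∈ Y, G.Adj x y)
    (hU : ∀ A : Set V, #A = κ → ∃ X ⊆ A, ∃ Y ⊆ A, #X = κ ∧ #Y = κ ∧
      ∀ x ∈ X, ∀ y ∈ Y, x ≠ y ∧ ¬ G.Adj x y)
    {W : Type v} {H : SimpleGraph W} (hH : P4F H) :
    ∀ n : ℕ, ∀ F : Set W, F.Finite → F.ncard = n → ∀ A : Set V, #A = κ →
      ∃ f, Emb H G F A f := by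
  intro n
  induction n using Nat.strong_induction_on with
  | _ n ih =>
    intro F hF hn A hA
    by_cases hnt : F.Nontrivial
    · obtain ⟨S, T, hS, hT, hd, hu, h⟩ := seinsche hH hF hnt
      have hSfin : S.Finite := hF.subset (hu ▸ subset_union_left)
      have hTfin : T.Finite := hF.subset (hu ▸ subset_union_right)
      have hcard : S.ncard + T.ncard = n := by
        rw [← hn, ← hu, ncard_union_eq hd hSfin hTfin]
      have hSpos : 0 < S.ncard := (ncard_pos hSfin).2 hS
      have hTpos : 0 < T.ncard := (ncard_pos hTfin).2 hT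
      rcases h with h | h
      · obtain ⟨X, hXA, Y, hYA, hX, hY, hXY⟩ := hJ A hA
        obtain ⟨f, hf⟩ := ih S.ncard (by omega) S hSfin rfl X hX
        obtain ⟨g, hg⟩ := ih T.ncard (by omega) T hTfin rfl Y hY
        rw [← hu]
        exact hf.union hg hXA hYA hd (fun x hx y hy => (hXY x hx y hy).ne)
          (fun s hs t ht => iff_of_true (h s hs t ht) (hXY _ (hf.maps s hs) _ (hg.maps t ht)))
      · obtain ⟨X, hXA, Y, hYA, hX, hY, hXY⟩ := hU A hA
        obtain ⟨f, hf⟩ := ih S.ncard (by omega) S hSfin rfl X hX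
        obtain ⟨g, hg⟩ := ih T.ncard (by omega) T hTfin rfl Y hY
        rw [← hu]
        exact hf.union hg hXA hYA hd (fun x hx y hy => (hXY x hx y hy).1)
          (fun s hs t ht => iff_of_false (h s hs t ht)
            (hXY _ (hf.maps s hs) _ (hg.maps t ht)).2)
    · have hsub : F.Subsingleton := not_nontrivial_iff.1 hnt
      have hne : Nonempty A := by
        rw [← mk_ne_zero_iff, hA]
        exact (lt_of_lt_of_le aleph0_pos hκ.aleph0_le).ne'
      obtain ⟨x⟩ := hne
      refine ⟨fun _ => x.1, ⟨fun s hs => x.2, fun s hs t ht _ => hsub hs ht, ?_⟩⟩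
      intro s hs t ht
      rw [hsub hs ht]
      exact iff_of_false H.irrefl G.irrefl

/-- without Souslin trees, a bad graph without induced paths with four vertices has completely
joined sets of size `κ` in any set of size `κ` -/
theorem exists_joined (hκ : κ.IsRegular) (hn : ¬ HasSouslin κ) (hV : #V = κ) (hbad : Bad κ G)
    (hP : P4F G) {A : Set V} (hA : #A = κ) : ∃ X ⊆ A, ∃ Y ⊆ A, #X = κ ∧ #Y = κ ∧
      ∀ x ∈ X, ∀ y ∈ Y, G.Adj x y := by
  classical
  by_contra hc
  have hc' : ∀ X ⊆ A, ∀ Y ⊆ A, (∀ x ∈ X, ∀ y ∈ Y, G.Adj x y) → #X < κ ∨ #Y < κ := by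
    intro X hX Y hY h
    by_contra h'
    push Not at h'
    refine hc ⟨X, hX, Y, hY, ?_, ?_, h⟩
    · exact le_antisymm (hA ▸ mk_le_mk_of_subset hX) h'.1
    · exact le_antisymm (hA ▸ mk_le_mk_of_subset hY) h'.2
  obtain ⟨_, _, hs⟩ := exists_order hV
  have hzero : #(∅ : Set V) < κ := by
    rw [mk_eq_zero]
    exact lt_of_lt_of_le aleph0_pos hκ.aleph0_le
  -- for every vertex `ξ` a small set
  have hsm : ∀ ξ : V, ∃ Z : Set V, #Z < κ ∧ ∀ y ∈ A, ∀ z ∈ A, y ≠ ξ → z ≠ ξ → y ∉ Z → z ∉ Z →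
      G.Adj y z → G.Adj ξ y → G.Adj ξ z := by
    intro ξ
    let X : Set V := {x | x ∈ A ∧ x ≠ ξ ∧ ¬ G.Adj ξ x}
    let g : V → Set V := fun x => {w | w ∈ A ∧ G.Adj ξ w ∧ G.Adj x w}
    obtain ⟨R, hRX, hR⟩ := exists_subset_bijOn X g
    have hRind : G.IsIndepSet R := by
      intro x hx y hy hxy hadj
      have hgne : g x ≠ g y := fun h => hxy (hR.injOn hx hy h)
      have main : ∀ x ∈ R, ∀ y ∈ R, G.Adj x y → g x ⊆ g y := by
        intro x hx y hy hadj w hw
        refine ⟨hw.1, hw.2.1, ?_⟩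
        rcases hP ξ w x y hw.2.1 hw.2.2.symm hadj with h1 | h1 | h1
        · exact absurd h1 (hRX hx).2.2
        · exact h1.symm
        · exact absurd h1 (hRX hy).2.2
      exact hgne (Subset.antisymm (main x hx y hy hadj) (main y hy x hx hadj.symm))
    have hRκ : #R < κ := hbad.indep_lt hRind
    let Z₁ : V → Set V := fun x => if #(g x) < κ then g x else ∅
    let Z₂ : V → Set V := fun x => if #{w | w ∈ X ∧ g w = g x} < κ then {w | w ∈ X ∧ g w = g x}
      else ∅
    have hZ₁ : ∀ x, #(Z₁ x) < κ := by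
      intro x
      by_cases h : #(g x) < κ
      · simp only [Z₁, if_pos h]
        exact h
      · simp only [Z₁, if_neg h]
        exact hzero
    have hZ₂ : ∀ x, #(Z₂ x) < κ := by
      intro x
      by_cases h : #{w | w ∈ X ∧ g w = g x} < κ
      · simp only [Z₂, if_pos h]
        exact h
      · simp only [Z₂, if_neg h]
        exact hzero
    refine ⟨(⋃ x ∈ R, Z₁ x) ∪ (⋃ x ∈ R, Z₂ x),
      small_union hκ (small_biUnion hκ hRκ fun x _ => hZ₁ x)
        (small_biUnion hκ hRκ fun x _ => hZ₂ x), ?_⟩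
    intro y hy z hz hyξ hzξ hyZ hzZ hadj hξy
    by_contra hξz
    have hzX : z ∈ X := ⟨hz, hzξ, hξz⟩
    have hgz : g z ∈ g '' X := ⟨z, hzX, rfl⟩
    rw [← hR.image_eq] at hgz
    obtain ⟨r, hr, hrz⟩ := hgz
    have hyg : y ∈ g r := by
      rw [hrz]
      exact ⟨hy, hξy, hadj.symm⟩
    rcases hc' (g r) (fun w hw => hw.1) {w | w ∈ X ∧ g w = g r} (fun w hw => hw.1.1)
      (by
        rintro x hx w ⟨_, hw2⟩
        rw [← hw2] at hx
        exact hx.2.2.symm) with h1 | h1
    · refine hyZ (Or.inl (mem_iUnion₂.2 ⟨r, hr, ?_⟩))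
      simp only [Z₁, if_pos h1]
      exact hyg
    · refine hzZ (Or.inr (mem_iUnion₂.2 ⟨r, hr, ?_⟩))
      simp only [Z₂, if_pos h1]
      exact ⟨hzX, hrz.symm⟩
  choose Z hZκ hZ using hsm
  obtain ⟨B, hBA, hBκ, hB⟩ := greedy hκ hs (fun S => ⋃ ξ ∈ S, Z ξ)
    (fun S hS => small_biUnion hκ hS fun ξ _ => hZκ ξ) hA
  refine hn (core_set hκ hs hbad B hBκ ?_)
  intro u hu v hv x hx huv hvx hux hvx'
  refine hZ u x (hBA hx) v (hBA hv) (huv.trans hvx).ne' huv.ne' ?_ ?_ hvx'.symm hux
  · intro hc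
    exact hB x hx (mem_iUnion₂.2 ⟨u, ⟨hu, huv.trans hvx⟩, hc⟩)
  · intro hc
    exact hB v hv (mem_iUnion₂.2 ⟨u, ⟨hu, huv⟩, hc⟩)

theorem exists_unjoined (hκ : κ.IsRegular) (hn : ¬ HasSouslin κ) (hV : #V = κ) (hbad : Bad κ G)
    (hP : P4F G) {A : Set V} (hA : #A = κ) : ∃ X ⊆ A, ∃ Y ⊆ A, #X = κ ∧ #Y = κ ∧
      ∀ x ∈ X, ∀ y ∈ Y, x ≠ y ∧ ¬ G.Adj x y := by
  obtain ⟨X, hX, Y, hY, h1, h2, h⟩ := exists_joined hκ hn hV hbad.compl hP.compl hA
  exact ⟨X, hX, Y, hY, h1, h2, fun x hx y hy => (SimpleGraph.compl_adj G x y).1 (h x hx y hy)⟩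

end Pool.Agent.SG
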