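import Pool.Agent.SG.Basic

open Cardinal Ordinal Set Relation

universe u

namespace Pool.Agent.SG

/-- A graph without cliques of size `κ` and without independent sets of size `κ`. -/
def Bad (κ : Cardinal.{u}) {V : Type u} (G : SimpleGraph V) : Prop :=
  (∀ S : Set V, G.IsClique S → #S ≠ κ) ∧ (∀ S : Set V, G.IsIndepSet S → #S ≠ κ)

/-- a copy of a type, to carry another order -/
def TreeOf (V : Type u) : Type u := V

section

variable {V : Type u} [LinearOrder V] (G : SimpleGraph V)

/-- adjacent and below -/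
def Dn (u x : V) : Prop := u < x ∧ G.Adj u x

variable {G}

theorem lt_of_tg {a b : V} (h : TransGen (Dn G) a b) : a < b := by
  induction h with
  | single h => exact h.1
  | tail _ h ih => exact ih.trans h.1

theorem interval (hC : ∀ u v x, u < v → v < x → G.Adj u x → G.Adj v x → G.Adj u v) {c b : V}
    (h : TransGen (Dn G) c b) : ∀ a, a < c → Dn G a b → Dn G a c := by
  induction h with
  | single h => exact fun a hac hab => ⟨hac, hC _ _ _ hac h.1 hab.2 h.2⟩
  | @tail b' b h1 h2 ih =>
    intro a hac hab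
    have h3 : a < b' := hac.trans (lt_of_tg h1)
    exact ih a hac ⟨h3, hC _ _ _ h3 h2.1 hab.2 h2.2⟩

theorem chainBelow [WellFoundedLT V]
    (hC : ∀ u v x, u < v → v < x → G.Adj u x → G.Adj v x → G.Adj u v) :
    ∀ x u v : V, TransGen (Dn G) u x → TransGen (Dn G) v x → u < v → TransGen (Dn G) u v := by
  intro x
  induction x using WellFoundedLT.induction with
  | _ x ih =>
    intro u v hu hv huv
    obtain ⟨y, huy, hyx⟩ := TransGen.tail'_iff.1 hu
    obtain ⟨z, hvz, hzx⟩ := TransGen.tail'_iff.1 hv
    rcases lt_trichotomy y z with hyz | hyz | hyz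
    · -- `y < z`
      have h1 : Dn G y z := ⟨hyz, hC _ _ _ hyz hzx.1 hyx.2 hzx.2⟩
      have h2 : TransGen (Dn G) u z := TransGen.tail' huy h1
      rcases reflTransGen_iff_eq_or_transGen.1 hvz with h3 | h3
      · rw [← h3]; exact h2
      · exact ih z hzx.1 u v h2 h3 huv
    · subst hyz
      rcases reflTransGen_iff_eq_or_transGen.1 huy with h2 | h2
      · rcases reflTransGen_iff_eq_or_transGen.1 hvz with h3 | h3
        · exact absurd huv (by rw [← h2, ← h3]; exact lt_irrefl _)
        · exact absurd (lt_of_tg h3) (by rw [h2]; exact not_lt.2 huv.le)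
      · rcases reflTransGen_iff_eq_or_transGen.1 hvz with h3 | h3
        · rw [← h3]; exact h2
        · exact ih y hyx.1 u v h2 h3 huv
    · have h1 : Dn G z y := ⟨hyz, hC _ _ _ hyz hyx.1 hzx.2 hyx.2⟩
      have h2 : TransGen (Dn G) v y := TransGen.tail' hvz h1
      rcases reflTransGen_iff_eq_or_transGen.1 huy with h3 | h3
      · exact absurd (lt_of_tg h2) (by rw [h3]; exact not_lt.2 huv.le)
      · exact ih y hyx.1 u v h3 h2 huv

/-- the tree order -/
@[reducible] def treeOrder (G : SimpleGraph V) : PartialOrder (TreeOf V) where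
  le a b := (a : V) = b ∨ TransGen (Dn G) a b
  lt a b := TransGen (Dn G) a b
  le_refl a := Or.inl rfl
  le_trans a b c := by
    rintro (rfl | h1) (rfl | h2)
    · exact Or.inl rfl
    · exact Or.inr h2
    · exact Or.inr h1
    · exact Or.inr (h1.trans h2)
  lt_iff_le_not_ge a b := by
    constructor
    · intro h
      refine ⟨Or.inr h, ?_⟩
      rintro (h1 | h1)
      · exact absurd (lt_of_tg h) (by rw [h1]; exact lt_irrefl _)
      · exact absurd (lt_of_tg h) (not_lt.2 (lt_of_tg h1).le)
    · rintro ⟨h1 | h1, h2⟩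
      · exact absurd (Or.inl h1.symm) h2
      · exact h1
  le_antisymm a b := by
    rintro (h1 | h1) (h2 | h2)
    · exact h1
    · exact h1
    · exact h2.symm
    · exact absurd (lt_of_tg h1) (not_lt.2 (lt_of_tg h2).le)

end

/-- a set linearly ordered by the tree order has size less than `κ` -/
theorem core_chain {κ : Cardinal.{u}} (hκ : κ.IsRegular) {V : Type u} [LinearOrder V]
    [WellFoundedLT V] (hs : ∀ a : V, #(Iio a) < κ) (G : SimpleGraph V)
    (hbad : Bad κ G) (hC : ∀ u v x, u < v → v < x → G.Adj u x → G.Adj v x → G.Adj u v)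
    (B : Set V) (hBlt : ∀ a ∈ B, ∀ b ∈ B, a < b → TransGen (Dn G) a b) : #B ≠ κ := by
  classical
  intro hBκ
  let Binf : Set V := {a | a ∈ B ∧ ∀ b ∈ B, a < b → G.Adj a b}
  let B' : Set V := {a | a ∈ B ∧ ∃ b ∈ B, a < b ∧ ¬ G.Adj a b}
  have hinf : #Binf < κ := by
    refine ne_of_subset (P := fun S : Set V => G.IsClique S)
      (fun S hS T hT => hS.subset hT) hbad.1 ?_
    intro a ha b hb hab
    rcases lt_or_gt_of_ne hab with h | h
    · exact ha.2 b hb.1 h
    · exact (hb.2 a ha.1 h).symm
  have hB'κ : #B' = κ := by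
    have h1 : (B : Set V) ⊆ Binf ∪ B' := by
      intro a ha
      by_cases h : ∀ b ∈ B, (a : V) < b → G.Adj a b
      · exact Or.inl ⟨ha, h⟩
      · push Not at h
        exact Or.inr ⟨ha, h⟩
    have h2 : (B' : Set V) ⊆ B := fun a ha => ha.1
    by_contra hne
    have h3 : #B' < κ := lt_of_le_of_ne (hBκ ▸ mk_le_mk_of_subset h2) hne
    have h4 := lt_of_le_of_lt (mk_le_mk_of_subset h1) (small_union hκ hinf h3)
    exact absurd hBκ h4.ne
  have hr : ∀ a : V, ∃ r : V, a ∈ B' → r ∈ B ∧ a < r ∧ ¬ G.Adj a r := by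
    intro a
    by_cases ha : a ∈ B'
    · obtain ⟨_, b, hb, h1, h2⟩ := ha
      exact ⟨b, fun _ => ⟨hb, h1, h2⟩⟩
    · exact ⟨a, fun h => absurd h ha⟩
  choose r hr using hr
  obtain ⟨I, hIB, hIκ, hI⟩ := greedy hκ hs (fun S => ⋃ a ∈ S, Iio (r a))
    (fun S hS => small_biUnion hκ hS fun a _ => hs (r a)) hB'κ
  refine hbad.2 I ?_ hIκ
  have hmain : ∀ a ∈ I, ∀ x ∈ I, a < x → ¬ G.Adj a x := by
    intro a ha x hx hax hadj
    obtain ⟨hrB, har, hnadj⟩ := hr a (hIB ha)
    have h1 : r a ≤ x := by
      by_contra hc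
      exact hI x hx (mem_iUnion₂.2 ⟨a, ⟨ha, hax⟩, not_le.1 hc⟩)
    rcases lt_or_eq_of_le h1 with h2 | h2
    · have h3 := hBlt (r a) hrB x (hIB hx).1 h2
      exact hnadj (interval hC h3 a har ⟨hax, hadj⟩).2
    · rw [h2] at hnadj
      exact hnadj hadj
  intro a ha x hx hax
  rcases lt_or_gt_of_ne hax with h | h
  · exact hmain a ha x hx h
  · exact fun h' => hmain x hx a ha h h'.symm

/-- a bad graph on a well-ordered set in which all lower neighbourhoods are cliques gives a
Souslin tree -/
theorem core {κ : Cardinal.{u}} (hκ : κ.IsRegular) {V : Type u} [LinearOrder V]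
    [WellFoundedLT V] (hs : ∀ a : V, #(Iio a) < κ) (hV : κ ≤ #V) (G : SimpleGraph V)
    (hbad : Bad κ G) (hC : ∀ u v x, u < v → v < x → G.Adj u x → G.Adj v x → G.Adj u v) :
    HasSouslin κ := by
  classical
  let po : PartialOrder (TreeOf V) := treeOrder G
  have htree : @IsTree (TreeOf V) po := by
    intro t
    let f : ((· < ·) : {s : TreeOf V // s < t} → {s : TreeOf V // s < t} → Prop) ↪r
        ((· < ·) : V → V → Prop) :=
      { toFun := fun s => s.1
        inj' := fun s s' h => Subtype.ext h
        map_rel_iff' := by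
          intro s s'
          constructor
          · intro h
            exact chainBelow hC t s.1 s'.1 s.2 s'.2 h
          · intro h
            exact lt_of_tg h }
    exact f.isWellOrder
  refine @hasSouslin_of κ hκ (TreeOf V) po htree hV ?_ ?_
  · -- chains
    intro B hB
    refine core_chain hκ hs G hbad hC B ?_
    intro a ha b hb hab
    have hne : a ≠ b := ne_of_lt hab
    rcases hB ha hb hne with h | h
    · rcases h with h | h
      · exact absurd h hne
      · exact h
    · rcases h with h | h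
      · exact absurd h.symm hne
      · exact absurd hab (not_lt.2 (lt_of_tg h).le)
  · intro A hA hAκ
    refine hbad.2 A ?_ hAκ
    intro a ha b hb hab hadj
    rcases lt_or_gt_of_ne (α := V) hab with h | h
    · exact hA ha hb hab (Or.inr (TransGen.single ⟨h, hadj⟩))
    · exact hA hb ha hab.symm (Or.inr (TransGen.single ⟨h, hadj.symm⟩))

end Pool.Agent.SG
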