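import Pool.Agent.SG.Thin

open Cardinal Set

universe u v

namespace Pool.Agent.SG

/-- `Elim H S`: the finite set `S` of vertices of `H` can be built up from the empty set by adding
one vertex joined to all or to none of the vertices present, or two non-adjacent vertices joined to
all the vertices present, or two adjacent vertices joined to none of the vertices present. -/
inductive Elim {W : Type v} (H : SimpleGraph W) : Set W → Prop
  | empty : Elim H ∅
  | dominating (S : Set W) (a : W) : Elim H S → a ∉ S → (∀ s ∈ S, H.Adj a s) →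
      Elim H (insert a S)
  | isolated (S : Set W) (a : W) : Elim H S → a ∉ S → (∀ s ∈ S, ¬ H.Adj a s) →
      Elim H (insert a S)
  | dominatingNonEdge (S : Set W) (a b : W) : Elim H S → a ∉ S → b ∉ S → a ≠ b → ¬ H.Adj a b →
      (∀ s ∈ S, H.Adj a s ∧ H.Adj b s) → Elim H (insert a (insert b S))
  | isolatedEdge (S : Set W) (a b : W) : Elim H S → a ∉ S → b ∉ S → H.Adj a b →
      (∀ s ∈ S, ¬ H.Adj a s ∧ ¬ H.Adj b s) → Elim H (insert a (insert b S))

variable {κ : Cardinal.{u}} {V : Type u} {G : SimpleGraph V}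

/-- `f` embeds the part `S` of `H` into the part `A` of `G` -/
structure Emb {W : Type v} (H : SimpleGraph W) (G : SimpleGraph V) (S : Set W) (A : Set V)
    (f : W → V) : Prop where
  maps : ∀ s ∈ S, f s ∈ A
  inj : ∀ s ∈ S, ∀ t ∈ S, f s = f t → s = t
  adj : ∀ s ∈ S, ∀ t ∈ S, (H.Adj s t ↔ G.Adj (f s) (f t))

/-- extension by one vertex -/
theorem Emb.insert_one {W : Type v} {H : SimpleGraph W} {S : Set W} {A A' : Set V} {f : W → V}
    (hf : Emb H G S A' f) (hAA : A' ⊆ A) {a : W} {u : V} (ha : a ∉ S) (hu : u ∈ A)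
    (hne : ∀ x ∈ A', x ≠ u)
    (h : ∀ s ∈ S, (H.Adj a s ↔ G.Adj u (f s))) :
    ∃ g : W → V, Emb H G (insert a S) A g ∧ g a = u ∧ ∀ s ∈ S, g s = f s := by
  classical
  have hS : ∀ s ∈ S, Function.update f a u s = f s := by
    intro s hs
    have : s ≠ a := fun h => ha (h ▸ hs)
    rw [Function.update_of_ne this]
  have ha' : Function.update f a u a = u := Function.update_self a u f
  refine ⟨Function.update f a u, ⟨?_, ?_, ?_⟩, ha', hS⟩
  · rintro s (rfl | hs)
    · rw [ha']; exact hu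
    · rw [hS s hs]; exact hAA (hf.maps s hs)
  · rintro s (rfl | hs) t (rfl | ht) hst
    · rfl
    · rw [ha', hS t ht] at hst
      exact absurd hst.symm (hne _ (hf.maps t ht))
    · rw [ha', hS s hs] at hst
      exact absurd hst (hne _ (hf.maps s hs))
    · rw [hS s hs, hS t ht] at hst
      exact hf.inj s hs t ht hst
  · rintro s (rfl | hs) t (rfl | ht)
    · simp
    · rw [ha', hS t ht]
      exact h t ht
    · rw [ha', hS s hs, H.adj_comm, G.adj_comm]
      exact h s hs
    · rw [hS s hs, hS t ht]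
      exact hf.adj s hs t ht

/-- extension by two vertices -/
theorem Emb.insert_two {W : Type v} {H : SimpleGraph W} {S : Set W} {A A' : Set V} {f : W → V}
    (hf : Emb H G S A' f) (hAA : A' ⊆ A) {a b : W} {u v : V} (ha : a ∉ S) (hb : b ∉ S)
    (hab : a ≠ b) (hu : u ∈ A) (hv : v ∈ A) (huv : u ≠ v)
    (hneu : ∀ x ∈ A', x ≠ u) (hnev : ∀ x ∈ A', x ≠ v)
    (h0 : H.Adj a b ↔ G.Adj u v)
    (h : ∀ s ∈ S, (H.Adj a s ↔ G.Adj u (f s))) (h' : ∀ s ∈ S, (H.Adj b s ↔ G.Adj v (f s))) :
    ∃ g : W → V, Emb H G (insert a (insert b S)) A g := by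
  obtain ⟨g, hg, hgb, hgS⟩ := hf.insert_one (A := insert v A') (fun x hx => Or.inr hx) hb
    (Or.inl rfl) hnev h'
  have h1 : insert v A' ⊆ A := by
    rintro x (rfl | hx)
    · exact hv
    · exact hAA hx
  have h2 : a ∉ insert b S := by
    rintro (h1 | h1)
    · exact hab h1
    · exact ha h1
  have h3 : ∀ x ∈ insert v A', x ≠ u := by
    rintro x (rfl | hx)
    · exact huv.symm
    · exact hneu x hx
  have h4 : ∀ s ∈ insert b S, (H.Adj a s ↔ G.Adj u (g s)) := by
    rintro s (rfl | hs)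
    · rw [hgb]; exact h0
    · rw [hgS s hs]; exact h s hs
  obtain ⟨g', hg', _, _⟩ := hg.insert_one h1 h2 hu h3 h4
  exact ⟨g', hg'⟩

/-- without Souslin trees, a bad graph contains all the graphs of the class `Elim` -/
theorem emb_of_elim (hκ : κ.IsRegular) (hn : ¬ HasSouslin κ) (hV : #V = κ) (hbad : Bad κ G)
    {W : Type v} {H : SimpleGraph W} {S : Set W} (hS : Elim H S) :
    ∀ A : Set V, #A = κ → ∃ f : W → V, Emb H G S A f := by
  induction hS with
  | empty =>
    intro A hA
    have hne : Nonempty A := by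
      rw [← mk_ne_zero_iff, hA]
      exact (lt_of_lt_of_le aleph0_pos hκ.aleph0_le).ne'
    obtain ⟨x⟩ := hne
    exact ⟨fun _ => x.1, ⟨fun s hs => absurd hs (notMem_empty s),
      fun s hs => absurd hs (notMem_empty s), fun s hs => absurd hs (notMem_empty s)⟩⟩
  | dominating S a _ ha hadj ih =>
    intro A hA
    obtain ⟨u, hu, v, _, _, _, hA'⟩ := exists_nonadj hκ hn hV hbad hA
    obtain ⟨f, hf⟩ := ih _ hA'
    obtain ⟨g, hg, _, _⟩ := hf.insert_one (A := A) (fun x hx => hx.1) ha hu
      (fun x hx h => G.irrefl (h ▸ hx.2.1))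
      (fun s hs => iff_of_true (hadj s hs) (hf.maps s hs).2.1)
    exact ⟨g, hg⟩
  | isolated S a _ ha hadj ih =>
    intro A hA
    obtain ⟨u, hu, v, _, _, hA'⟩ := exists_adj hκ hn hV hbad hA
    obtain ⟨f, hf⟩ := ih _ hA'
    obtain ⟨g, hg, _, _⟩ := hf.insert_one (A := A) (fun x hx => hx.1) ha hu
      (fun x hx => hx.2.1)
      (fun s hs => iff_of_false (hadj s hs) (hf.maps s hs).2.2.2.1)
    exact ⟨g, hg⟩
  | dominatingNonEdge S a b _ ha hb hab hnadj hadj ih =>
    intro A hA
    obtain ⟨u, hu, v, hv, huv, huv', hA'⟩ := exists_nonadj hκ hn hV hbad hA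
    obtain ⟨f, hf⟩ := ih _ hA'
    exact hf.insert_two (A := A) (fun x hx => hx.1) ha hb hab hu hv huv
      (fun x hx h => G.irrefl (h ▸ hx.2.1)) (fun x hx h => G.irrefl (h ▸ hx.2.2))
      (iff_of_false hnadj huv')
      (fun s hs => iff_of_true (hadj s hs).1 (hf.maps s hs).2.1)
      (fun s hs => iff_of_true (hadj s hs).2 (hf.maps s hs).2.2)
  | isolatedEdge S a b _ ha hb hab hadj ih =>
    intro A hA
    obtain ⟨u, hu, v, hv, huv, hA'⟩ := exists_adj hκ hn hV hbad hA
    obtain ⟨f, hf⟩ := ih _ hA'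
    exact hf.insert_two (A := A) (fun x hx => hx.1) ha hb hab.ne hu hv huv.ne
      (fun x hx => hx.2.1) (fun x hx => hx.2.2.1)
      (iff_of_true hab huv)
      (fun s hs => iff_of_false (hadj s hs).1 (hf.maps s hs).2.2.2.1)
      (fun s hs => iff_of_false (hadj s hs).2 (hf.maps s hs).2.2.2.2)

/-- an embedding of the whole graph -/
theorem Emb.toEmbedding {W : Type v} {H : SimpleGraph W} {A : Set V} {f : W → V}
    (hf : Emb H G univ A f) : Nonempty (H ↪g G) :=
  ⟨{ toFun := f
     inj' := fun s t h => hf.inj s (mem_univ s) t (mem_univ t) h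
     map_rel_iff' := fun {s t} => (hf.adj s (mem_univ s) t (mem_univ t)).symm }⟩

end Pool.Agent.SG
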