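import Pool.Agent.SG.Rho

open Cardinal Set Order

universe u

namespace Pool.Agent.SG

/-- a cofinal sequence of infinite cardinals below a singular cardinal -/
theorem exists_index (l : Cardinal.{u}) (hl : l.IsSingular) :
    ∃ (N : Type u) (_ : LinearOrder N) (_ : NoMaxOrder N) (f : N → Cardinal.{u}),
      #N = l.ord.cof ∧ (∀ i : N, #(Iio i) < l.ord.cof) ∧ (∀ i, ℵ₀ ≤ f i) ∧ (∀ i, f i < l) ∧
        Monotone f ∧ ∀ m < l, ∃ i, m ≤ f i := by
  have hl0 : ℵ₀ < l := by
    refine lt_of_le_of_ne hl.aleph0_le ?_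
    rintro rfl
    exact hl.cof_ord_ne isRegular_aleph0.cof_ord
  obtain ⟨s, hs, hs'⟩ := Ordinal.exists_ord_cof_eq l.ord.ToType
  rw [Ordinal.cof_toType] at hs'
  have hN : #s = l.ord.cof := by
    have h1 := congrArg Ordinal.card hs'
    rwa [card_ord, Ordinal.card_type] at h1
  have hlt : ∀ x : l.ord.ToType, #(Iio x) < l := by
    intro x
    have := mk_Iio_lt x (by rw [mk_ord_toType, Ordinal.type_toType])
    rwa [mk_ord_toType] at this
  have hnm : ∀ x : l.ord.ToType, ∃ y, x < y := by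
    intro x
    by_contra hc
    push Not at hc
    have h1 : (Set.univ : Set l.ord.ToType) ⊆ Iio x ∪ {x} := by
      intro y _
      rcases lt_or_eq_of_le (hc y) with h | h
      · exact Or.inl h
      · exact Or.inr h
    have h2 : #l.ord.ToType ≤ #(Iio x) + 1 := by
      rw [← mk_univ]
      refine (mk_le_mk_of_subset h1).trans ((mk_union_le _ _).trans ?_)
      rw [mk_singleton]
    rw [mk_ord_toType] at h2
    exact absurd h2 (not_le.2 (add_lt_of_lt hl.aleph0_le (hlt x) (one_lt_aleph0.trans hl0)))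
  refine ⟨s, inferInstance, ⟨fun i => ?_⟩, fun i => max ℵ₀ #(Iio i.1), hN, fun i => ?_,
    fun i => le_max_left _ _, fun i => max_lt hl0 (hlt i.1), fun i j hij => ?_, fun m hm => ?_⟩
  · obtain ⟨y, hy⟩ := hnm i.1
    obtain ⟨z, hz, hyz⟩ := hs y
    exact ⟨⟨z, hz⟩, show (i.1 : l.ord.ToType) < z from lt_of_lt_of_le hy hyz⟩
  · have := mk_Iio_lt i (by rw [hN, hs'])
    rwa [hN] at this
  · exact max_le_max le_rfl (mk_le_mk_of_subset (Iio_subset_Iio hij))
  · have h1 : m.ord < Ordinal.type (α := l.ord.ToType) (· < ·) := by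
      rw [Ordinal.type_toType]
      exact ord_lt_ord.2 hm
    obtain ⟨x, hx⟩ := Ordinal.typein_surj (α := l.ord.ToType) (· < ·) h1
    obtain ⟨z, hz, hxz⟩ := hs x
    refine ⟨⟨z, hz⟩, le_trans ?_ (le_max_right _ _)⟩
    have h2 : #(Iio x) = m := by
      have := congrArg Ordinal.card hx
      rw [card_ord] at this
      rw [← this]
      rfl
    rw [← h2]
    exact mk_le_mk_of_subset (Iio_subset_Iio hxz)

section

variable {K : Type u} [LinearOrder K] [WellFoundedLT K]

/-- the orders of the family -/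
@[reducible] def famOrder {C : K → Set K} {S : K → Prop} (hC : CSeq C) (hcoh : ∀ b, CohAt C S b)
    (E : K → K → Prop) (hE : Equivalence E) : PartialOrder K where
  le a b := a = b ∨ (Rho C S a b ∧ E a b)
  lt a b := Rho C S a b ∧ E a b
  le_refl a := Or.inl rfl
  le_trans a b c := by
    rintro (rfl | ⟨h1, h1'⟩) (rfl | ⟨h2, h2'⟩)
    · exact Or.inl rfl
    · exact Or.inr ⟨h2, h2'⟩
    · exact Or.inr ⟨h1, h1'⟩
    · exact Or.inr ⟨(hcoh c b h2 a (Rho.lt' hC b a h1)).1 h1, hE.trans h1' h2'⟩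
  lt_iff_le_not_ge a b := by
    constructor
    · rintro ⟨h, h'⟩
      refine ⟨Or.inr ⟨h, h'⟩, ?_⟩
      rintro (h1 | ⟨h1, _⟩)
      · exact absurd (Rho.lt' hC b a h) (by rw [h1]; exact lt_irrefl _)
      · exact absurd (Rho.lt' hC b a h) (not_lt.2 (Rho.lt' hC a b h1).le)
    · rintro ⟨h1 | h1, h2⟩
      · exact absurd (Or.inl h1.symm) h2
      · exact h1
  le_antisymm a b := by
    rintro (h1 | ⟨h1, _⟩) (h2 | ⟨h2, _⟩)
    · exact h1
    · exact h1
    · exact h2.symm
    · exact absurd (Rho.lt' hC b a h1) (not_lt.2 (Rho.lt' hC a b h2).le)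

theorem famOrder_tree {C : K → Set K} {S : K → Prop} (hC : CSeq C) (hcoh : ∀ b, CohAt C S b)
    (E : K → K → Prop) (hE : Equivalence E) : @IsTree K (famOrder hC hcoh E hE) := by
  let ltK : K → K → Prop := (· < ·)
  have hw : IsWellOrder K ltK := inferInstanceAs (IsWellOrder K (· < ·))
  intro t
  let f : (fun x y : {s : K // Rho C S s t ∧ E s t} => Rho C S x.1 y.1 ∧ E x.1 y.1) ↪r ltK :=
    { toFun := fun s => s.1
      inj' := fun s s' h => Subtype.ext h
      map_rel_iff' := by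
        intro s s'
        constructor
        · intro h
          exact ⟨(hcoh t s'.1 s'.2.1 s.1 h).2 s.2.1, hE.trans s.2.2 (hE.symm s'.2.2)⟩
        · intro h
          exact Rho.lt' hC _ _ h.1 }
  exact f.isWellOrder

omit [WellFoundedLT K] in
theorem exists_bound {κ : Cardinal.{u}} (hκ : κ.IsRegular) (hs : ∀ a : K, #(Iio a) < κ)
    {A Y : Set K} (hA : #A = κ) (hY : #Y < κ) : ∃ d ∈ A, ∀ y ∈ Y, y < d := by
  have h0 : #(∅ : Set K) < κ := by
    rw [mk_eq_zero]
    exact lt_of_lt_of_le aleph0_pos hκ.aleph0_le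
  obtain ⟨x, hx, _, h⟩ := exists_above hκ hs hA hY h0
  exact ⟨x, hx, h⟩

/-- **Souslin families**: the combinatorial theorem. -/
theorem family {l : Cardinal.{u}} (hl : l.IsSingular) (hK : #K = succ l)
    (hs : ∀ a : K, #(Iio a) < succ l) {σ τ : Cardinal.{u}} (hτ : τ < l)
    (h1 : ∀ m < l.ord.cof, σ ^ m ≤ τ) (h2 : l < σ ^ l.ord.cof) {C : K → Set K} (hC : CSeq C)
    (hCl : ∀ b, IsSuccLimit b → #(C b) < l) :
    ∃ (N : Type u) (P : N → PartialOrder K), #N = l.ord.cof ∧ (∀ n, @IsTree K (P n)) ∧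
      (∀ X : Set K, (∀ a ∈ X, ∀ b ∈ X, ∃ n, (P n).le a b ∨ (P n).le b a) → #X ≤ l) ∧
      (∀ X : Set K, (∀ n, IsAntichain (P n).le X) → #X ≤ max τ l.ord.cof) := by
  classical
  have hκ : (succ l).IsRegular := isRegular_succ hl.aleph0_le
  obtain ⟨N, _, _, f, hN, hNi, hf0, hfl, hfm, hfc⟩ := exists_index l hl
  have hν0 : ℵ₀ ≤ l.ord.cof := by
    rw [Ordinal.aleph0_le_cof_iff, Ordinal.one_lt_cof_iff]
    exact isSuccLimit_ord hl.aleph0_le
  have hN0 : Nonempty N := by
    rw [← mk_ne_zero_iff, hN]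
    exact (lt_of_lt_of_le aleph0_pos hν0).ne'
  let S : N → K → Prop := fun i b => #(C b) ≤ f i
  have hS : ∀ i, ∀ b, IsSuccLimit b → S i b → ∀ c < b, LimPt (C b) c → S i c := by
    intro i b hb hSb c hcb hc
    have := hC.coh b hb c hcb hc
    show #(C c) ≤ f i
    rw [this]
    exact (mk_le_mk_of_subset inter_subset_left).trans hSb
  have hmono : ∀ i j, i ≤ j → ∀ b, S i b → S j b := fun i j hij b h => le_trans h (hfm hij)
  have hex : ∀ b, IsSuccLimit b → ∃ i, S i b := fun b hb => hfc _ (hCl b hb)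
  have hcoh : ∀ i, ∀ b, CohAt C (S i) b := fun i => rho_coh hC (hS i)
  have hexh := rho_exhaust hC hmono hex
  have hsmall : ∀ i b, #{a | Rho C (S i) a b} ≤ f i :=
    fun i b => rho_small hC (hf0 i) (fun b _ h => h) b
  -- distinct functions
  have hinj : Nonempty (K ↪ (N → σ.out)) := by
    rw [← Cardinal.le_def]
    have : #(N → σ.out) = σ ^ l.ord.cof := by
      rw [← hN, ← power_def, mk_out]
    rw [this, hK]
    exact succ_le_of_lt h2
  obtain ⟨r⟩ := hinj
  let E : N → K → K → Prop := fun i a b => ∀ j < i, r a j = r b j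
  have hE : ∀ i, Equivalence (E i) := fun i =>
    ⟨fun a j _ => rfl, fun h j hj => (h j hj).symm, fun h h' j hj => (h j hj).trans (h' j hj)⟩
  have hrestr : ∀ i : N, #(Iio i → σ.out) ≤ τ := by
    intro i
    rw [← power_def, mk_out]
    exact h1 _ (hNi i)
  refine ⟨N, fun i => famOrder hC (hcoh i) (E i) (hE i), hN,
    fun i => famOrder_tree hC (hcoh i) (E i) (hE i), ?_, ?_⟩
  · intro X hX
    by_contra hcon
    have hXκ : #X = succ l :=
      le_antisymm (hK ▸ mk_set_le X) (succ_le_of_lt (not_le.1 hcon))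
    -- elements in small classes
    let Bad : N → Set K := fun i => {a | a ∈ X ∧ #{x | x ∈ X ∧ E i x a} < succ l}
    have hBad : ∀ i, #(Bad i) < succ l := by
      intro i
      let Z : (Iio i → σ.out) → Set K := fun s =>
        if #{x | x ∈ X ∧ ∀ j : Iio i, r x j.1 = s j} < succ l then
          {x | x ∈ X ∧ ∀ j : Iio i, r x j.1 = s j} else ∅
      have hsub : Bad i ⊆ ⋃ s, Z s := by
        rintro a ⟨haX, ha⟩
        refine mem_iUnion.2 ⟨fun j => r a j.1, ?_⟩
        have hset : {x | x ∈ X ∧ ∀ j : Iio i, r x j.1 = r a j.1} = {x | x ∈ X ∧ E i x a} := by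
          ext x
          constructor
          · rintro ⟨hx, h⟩
            exact ⟨hx, fun j hj => h ⟨j, hj⟩⟩
          · rintro ⟨hx, h⟩
            exact ⟨hx, fun j => h j.1 j.2⟩
        simp only [Z]
        rw [hset, if_pos ha]
        exact ⟨haX, fun j _ => rfl⟩
      refine lt_of_le_of_lt (mk_le_mk_of_subset hsub) ?_
      refine (card_iUnion_lt_iff_forall_of_isRegular hκ
        (lt_of_le_of_lt (hrestr i) (hτ.trans (lt_succ l)))).2 ?_
      intro s
      by_cases hs : #{x | x ∈ X ∧ ∀ j : Iio i, r x j.1 = s j} < succ l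
      · simp only [Z, if_pos hs]
        exact hs
      · simp only [Z, if_neg hs]
        rw [mk_eq_zero]
        exact lt_of_lt_of_le aleph0_pos hκ.aleph0_le
    have hBadU : #(⋃ i, Bad i) < succ l := by
      refine (card_iUnion_lt_iff_forall_of_isRegular hκ ?_).2 hBad
      rw [hN]
      exact hl.cof_ord_lt.trans (lt_succ l)
    have h0 : #(∅ : Set K) < succ l := by
      rw [mk_eq_zero]
      exact lt_of_lt_of_le aleph0_pos hκ.aleph0_le
    obtain ⟨a, haX, haB, _⟩ := exists_above hκ hs hXκ h0 hBadU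
    obtain ⟨b, hbX, hbB, hab⟩ := exists_above hκ hs hXκ (small_singleton hκ a) hBadU
    have hab' : a < b := hab a rfl
    have hne : r a ≠ r b := fun h => hab'.ne (r.injective h)
    obtain ⟨i, hi⟩ := Function.ne_iff.1 hne
    obtain ⟨j, hj⟩ := exists_gt i
    have hbig : ∀ c ∈ X, c ∉ ⋃ i, Bad i → #{x | x ∈ X ∧ E j x c} = succ l := by
      intro c hcX hc
      have h3 : ¬ #{x | x ∈ X ∧ E j x c} < succ l := fun h => hc (mem_iUnion.2 ⟨j, hcX, h⟩)
      refine le_antisymm ?_ (not_lt.1 h3)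
      rw [← hXκ]
      exact mk_le_mk_of_subset fun x hx => hx.1
    have hA := hbig a haX haB
    have hB := hbig b hbX hbB
    have hm : succ (f j) ≤ #{x | x ∈ X ∧ E j x a} := by
      rw [hA]
      exact succ_le_succ (hfl j).le
    obtain ⟨Y, hYA, hY⟩ := le_mk_iff_exists_subset.1 hm
    have hYκ : #Y < succ l := by
      rw [hY, lt_succ_iff]
      exact succ_le_of_lt (hfl j)
    obtain ⟨b', hb', hYb⟩ := exists_bound hκ hs hB hYκ
    have hy : ∃ y ∈ Y, ¬ Rho C (S j) y b' := by
      by_contra hc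
      push Not at hc
      have : #Y ≤ f j := (mk_le_mk_of_subset (fun y hy => hc y hy)).trans (hsmall j b')
      rw [hY] at this
      exact absurd this (not_le.2 (lt_succ _))
    obtain ⟨y, hyY, hyR⟩ := hy
    have hyb := hYb y hyY
    have key : ∀ n, ¬ (Rho C (S n) y b' ∧ E n y b') := by
      rintro n ⟨hR, hEn⟩
      rcases le_or_gt n j with h3 | h3
      · exact hyR (rho_mono hC (hmono n j h3) b' y hR)
      · apply hi
        have e1 := (hYA hyY).2 i hj
        have e2 := hb'.2 i hj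
        have e3 := hEn i (hj.trans h3)
        rw [← e1, e3, e2]
    obtain ⟨n, hn | hn⟩ := hX y (hYA hyY).1 b' hb'.1
    · rcases hn with hn | hn
      · exact hyb.ne hn
      · exact key n hn
    · rcases hn with hn | hn
      · exact hyb.ne hn.symm
      · exact absurd (Rho.lt' hC _ _ hn.1) (not_lt.2 hyb.le)
  · intro X hX
    by_contra hcon
    have hθ : max τ l.ord.cof < l := max_lt hτ hl.cof_ord_lt
    obtain ⟨Y, hYX, hY⟩ := le_mk_iff_exists_subset.1 (succ_le_of_lt (not_le.1 hcon))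
    have hYκ : #Y < succ l := by
      rw [hY, lt_succ_iff]
      exact succ_le_of_lt hθ
    have huniv : #(Set.univ : Set K) = succ l := by rw [mk_univ, hK]
    obtain ⟨d, _, hd⟩ := exists_bound hκ hs huniv hYκ
    have hcov : Y ⊆ ⋃ i, {a | a ∈ Y ∧ Rho C (S i) a d} := by
      intro a ha
      obtain ⟨i, hi⟩ := hexh d a (hd a ha)
      exact mem_iUnion.2 ⟨i, ha, hi⟩
    have hYi : ∀ i, #{a | a ∈ Y ∧ Rho C (S i) a d} ≤ τ := by
      intro i
      refine le_trans ?_ (hrestr i)
      refine mk_le_of_injective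
        (f := fun (a : {a | a ∈ Y ∧ Rho C (S i) a d}) (j : Iio i) => r a.1 j.1) ?_
      intro a a' haa
      have hE' : E i a.1 a'.1 := fun j hj => congrFun haa ⟨j, hj⟩
      by_contra hne
      have hne' : a.1 ≠ a'.1 := fun h => hne (Subtype.ext h)
      rcases lt_or_gt_of_ne hne' with h3 | h3
      · exact hX i (hYX a.2.1) (hYX a'.2.1) hne'
          (Or.inr ⟨(hcoh i d a'.1 a'.2.2 a.1 h3).2 a.2.2, hE'⟩)
      · exact hX i (hYX a'.2.1) (hYX a.2.1) hne'.symm
          (Or.inr ⟨(hcoh i d a.1 a.2.2 a'.1 h3).2 a'.2.2, (hE i).symm hE'⟩)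
    have hle : #Y ≤ max τ l.ord.cof := by
      refine (mk_le_mk_of_subset hcov).trans ((mk_iUnion_le _).trans ?_)
      rw [hN]
      exact mul_le_of_le (hν0.trans (le_max_right _ _)) (le_max_right _ _)
        (ciSup_le' fun i => (hYi i).trans (le_max_left _ _))
    rw [hY] at hle
    exact absurd hle (not_le.2 (lt_succ _))

end

end Pool.Agent.SG
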