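import Pool.Agent.SG.Basic

open Cardinal Set Order

universe u

namespace Pool.Agent.SG

/-- the restriction of an order to a subset -/
@[reducible] def subOrder {V : Type u} (P : PartialOrder V) (A : Set V) : PartialOrder A where
  le a b := P.le a.1 b.1
  lt a b := P.lt a.1 b.1
  le_refl a := P.le_refl a.1
  le_trans a b c := P.le_trans a.1 b.1 c.1
  lt_iff_le_not_ge a b := P.lt_iff_le_not_ge a.1 b.1
  le_antisymm a b h h' := Subtype.ext (P.le_antisymm a.1 b.1 h h')

theorem subOrder_tree {V : Type u} (P : PartialOrder V) (h : @IsTree V P) (A : Set V) :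
    @IsTree A (subOrder P A) := by
  intro t
  have := h t.1
  let f : (fun x y : {s : A // P.lt s.1 t.1} => P.lt x.1.1 y.1.1) ↪r
      (fun x y : {s : V // P.lt s t.1} => P.lt x.1 y.1) :=
    { toFun := fun s => ⟨s.1.1, s.2⟩
      inj' := fun s s' h => by
        have h' := Subtype.ext_iff.1 h
        exact Subtype.ext (Subtype.ext h')
      map_rel_iff' := Iff.rfl }
  exact f.isWellOrder

/-- **Finite families.**  If finitely many tree orders on a set of size `κ` have no pairwise
comparable (in the union) subset of size `κ` and no common antichain of size `κ`, then there is a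
`κ`-Souslin tree. -/
theorem finite_family {κ : Cardinal.{u}} (hκ : κ.IsRegular) : ∀ (n : ℕ) (V : Type u)
    (P : Fin n → PartialOrder V), #V = κ → (∀ i, @IsTree V (P i)) →
      (∀ X : Set V, (∀ a ∈ X, ∀ b ∈ X, a ≠ b → ∃ i, (P i).le a b ∨ (P i).le b a) → #X ≠ κ) →
      (∀ X : Set V, (∀ i, IsAntichain (P i).le X) → #X ≠ κ) → HasSouslin κ := by
  intro n
  induction n with
  | zero =>
    intro V P hV _ _ hA
    exact absurd (by rw [mk_univ, hV]) (hA Set.univ (fun i => i.elim0))
  | succ n ih =>
    intro V P hV hT hC hA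
    by_cases h : ∃ A : Set V, IsAntichain (P (Fin.last n)).le A ∧ #A = κ
    · obtain ⟨A, hAa, hAκ⟩ := h
      refine ih A (fun i => subOrder (P i.castSucc) A) hAκ
        (fun i => subOrder_tree _ (hT i.castSucc) A) ?_ ?_
      · intro X hX
        have h1 : #X = #(Subtype.val '' X : Set V) := (mk_image_eq Subtype.val_injective).symm
        rw [h1]
        refine hC _ ?_
        rintro _ ⟨a, ha, rfl⟩ _ ⟨b, hb, rfl⟩ hab
        obtain ⟨i, hi⟩ := hX a ha b hb (fun h => hab (congrArg Subtype.val h))
        exact ⟨i.castSucc, hi⟩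
      · intro X hX
        have h1 : #X = #(Subtype.val '' X : Set V) := (mk_image_eq Subtype.val_injective).symm
        rw [h1]
        refine hA _ ?_
        intro i
        rcases Fin.eq_castSucc_or_eq_last i with ⟨j, rfl⟩ | rfl
        · rintro _ ⟨a, ha, rfl⟩ _ ⟨b, hb, rfl⟩ hab hle
          exact hX j ha hb (fun h => hab (congrArg Subtype.val h)) hle
        · refine hAa.subset ?_
          rintro _ ⟨a, _, rfl⟩
          exact a.2
    · push Not at h
      refine @hasSouslin_of κ hκ V (P (Fin.last n)) (hT _) hV.ge ?_ (fun A hA' => h A hA')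
      intro X hX
      refine hC X ?_
      intro a ha b hb hab
      exact ⟨Fin.last n, hX ha hb hab⟩

/-- the converse: a Souslin tree, restricted to `κ` nodes, is a family with one member -/
theorem family_of_souslin {κ : Cardinal.{u}} (h : HasSouslin κ) : ∃ (V : Type u)
    (P : PartialOrder V), #V = κ ∧ @IsTree V P ∧
      (∀ X : Set V, (∀ a ∈ X, ∀ b ∈ X, a ≠ b → P.le a b ∨ P.le b a) → #X ≠ κ) ∧
      (∀ X : Set V, IsAntichain P.le X → #X ≠ κ) := by
  obtain ⟨T, po, htree, hht, hC, hA⟩ := h
  have hκT : κ ≤ #T := by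
    have hex : ∀ i : κ.ord.ToType, ∃ t : T, nodeHeight htree t =
        Ordinal.typein (α := κ.ord.ToType) (· < ·) i := by
      intro i
      rw [hht]
      exact Ordinal.typein_lt_self i
    choose f hf using hex
    have hinj : Function.Injective f := by
      intro i j hij
      have h1 := hf i
      rw [hij, hf j] at h1
      exact (Ordinal.typein_injective (α := κ.ord.ToType) (· < ·) h1).symm
    have := mk_le_of_injective hinj
    rwa [mk_ord_toType] at this
  obtain ⟨p, hp⟩ := le_mk_iff_exists_set.1 hκT
  refine ⟨p, subOrder po p, hp, subOrder_tree po htree p, ?_, ?_⟩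
  · intro X hX
    have h1 : #X = #(Subtype.val '' X : Set T) := (mk_image_eq Subtype.val_injective).symm
    rw [h1]
    refine hC _ ?_
    rintro _ ⟨a, ha, rfl⟩ _ ⟨b, hb, rfl⟩ hab
    exact hX a ha b hb (fun h => hab (congrArg Subtype.val h))
  · intro X hX
    have h1 : #X = #(Subtype.val '' X : Set T) := (mk_image_eq Subtype.val_injective).symm
    rw [h1]
    refine hA _ ?_
    rintro _ ⟨a, ha, rfl⟩ _ ⟨b, hb, rfl⟩ hab hle
    exact hX ha hb (fun h => hab (congrArg Subtype.val h)) hle

end Pool.Agent.SG
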