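import Pool.Agent.SG.Basic

open Cardinal Set Order

universe u

namespace Pool.Agent.SG

/-- `b` is a limit point of `c`. -/
def LimPt {K : Type u} [LinearOrder K] (c : Set K) (b : K) : Prop :=
  (∃ x, x < b) ∧ ∀ x < b, ∃ y ∈ c, x < y ∧ y < b

/-- coherent sequences of closed unbounded sets -/
structure CSeq {K : Type u} [LinearOrder K] (C : K → Set K) : Prop where
  sub : ∀ a, IsSuccLimit a → ∀ x ∈ C a, x < a
  unb : ∀ a, IsSuccLimit a → ∀ x < a, ∃ y ∈ C a, x < y
  clo : ∀ a, IsSuccLimit a → ∀ b < a, LimPt (C a) b → b ∈ C a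
  coh : ∀ a, IsSuccLimit a → ∀ b < a, LimPt (C a) b → C b = C a ∩ Set.Iio b

mutual

/-- `Rho C S a b`: `a` belongs to the set attached to `b`. -/
inductive Rho {K : Type u} [LinearOrder K] (C : K → Set K) (S : K → Prop) : K → K → Prop
  | sc (b c : K) : c ⋖ b → Rho C S c b
  | st (a b c : K) : c ⋖ b → Rho C S a c → Rho C S a b
  | lc (b c : K) : IsSuccLimit b → S b → Gd C S b c → Rho C S c b
  | lt (a b c : K) : IsSuccLimit b → S b → Gd C S b c → Rho C S a c → Rho C S a b

/-- `Gd C S b c`: `c` is a good element of `C b`. -/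
inductive Gd {K : Type u} [LinearOrder K] (C : K → Set K) (S : K → Prop) : K → K → Prop
  | mn (b c : K) : c ∈ C b → (∀ x ∈ C b, c ≤ x) → Gd C S b c
  | ac (b c : K) : c ∈ C b → LimPt (C b) c → Gd C S b c
  | nx (b c d : K) : c ∈ C b → d < c → (∀ x ∈ C b, d < x → c ≤ x) → Gd C S b d →
      Rho C S d c → Gd C S b c

end

variable {K : Type u} [LinearOrder K] {C : K → Set K} {S : K → Prop}

theorem Gd.mem {b c : K} (h : Gd C S b c) : c ∈ C b := by
  cases h with
  | mn _ _ h _ => exact h
  | ac _ _ h _ => exact h
  | nx _ _ _ h _ _ _ _ => exact h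

theorem LimPt.isSuccLimit {c : Set K} {b : K} (h : LimPt c b) : IsSuccLimit b := by
  refine ⟨?_, ?_⟩
  · intro hm
    obtain ⟨x, hx⟩ := h.1
    exact absurd (hm hx.le) (not_le.2 hx)
  · intro a ha
    obtain ⟨y, _, h1, h2⟩ := h.2 a ha.lt
    exact ha.2 h1 h2

theorem not_covBy_of_limit {b c : K} (hb : IsSuccLimit b) : ¬ c ⋖ b := hb.2 c

variable [WellFoundedLT K]

theorem Rho.lt' (hC : CSeq C) : ∀ b a : K, Rho C S a b → a < b := by
  intro b
  induction b using WellFoundedLT.induction with
  | _ b ih =>
    intro a h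
    cases h with
    | sc _ _ h => exact h.lt
    | st _ _ c h h' => exact (ih c h.lt a h').trans h.lt
    | lc _ _ hb _ h => exact hC.sub b hb a h.mem
    | lt _ _ c hb _ h h' =>
      have hc := hC.sub b hb c h.mem
      exact (ih c hc a h').trans hc

/-- the sets attached to the elements are coherent at `b` -/
def CohAt (C : K → Set K) (S : K → Prop) (b : K) : Prop :=
  ∀ a, Rho C S a b → ∀ x, x < a → (Rho C S x a ↔ Rho C S x b)

/-- goodness is transferred to accumulation points -/
theorem Gd.transfer {b b' : K} (hbb : C b' = C b ∩ Iio b') :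
    ∀ c, Gd C S b c → c < b' → Gd C S b' c := by
  intro c
  induction c using WellFoundedLT.induction with
  | _ c ih =>
    intro h hc
    cases h with
    | mn _ _ h1 h2 =>
      refine Gd.mn b' c (hbb ▸ ⟨h1, hc⟩) ?_
      intro x hx
      rw [hbb] at hx
      exact h2 x hx.1
    | ac _ _ h1 h2 =>
      refine Gd.ac b' c (hbb ▸ ⟨h1, hc⟩) ⟨h2.1, ?_⟩
      intro x hx
      obtain ⟨y, hy, h3, h4⟩ := h2.2 x hx
      exact ⟨y, hbb ▸ ⟨hy, h4.trans hc⟩, h3, h4⟩
    | nx _ _ d h1 h2 h3 h4 h5 =>
      refine Gd.nx b' c d (hbb ▸ ⟨h1, hc⟩) h2 ?_ (ih d h2 h4 (h2.trans hc)) h5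
      intro x hx
      rw [hbb] at hx
      exact h3 x hx.1

/-- smaller good elements belong to the sets attached to the larger good elements -/
theorem good_claim (hC : CSeq C)
    (hS : ∀ b, IsSuccLimit b → S b → ∀ c < b, LimPt (C b) c → S c) {b : K}
    (hb : IsSuccLimit b) (hSb : S b) (ih : ∀ c < b, CohAt C S c) :
    ∀ c', Gd C S b c' → ∀ c, Gd C S b c → c < c' → Rho C S c c' := by
  intro c'
  induction c' using WellFoundedLT.induction with
  | _ c' ih' =>
    intro h' c h hcc
    have hc'b := hC.sub b hb c' h'.mem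
    cases h' with
    | mn _ _ _ h2 => exact absurd hcc (not_lt.2 (h2 c h.mem))
    | ac _ _ h1 h2 =>
      exact Rho.lc c' c h2.isSuccLimit (hS b hb hSb c' hc'b h2)
        (Gd.transfer (hC.coh b hb c' hc'b h2) c h hcc)
    | nx _ _ d h1 h2 h3 h4 h5 =>
      have hcd : c ≤ d := by
        by_contra hc
        exact absurd hcc (not_lt.2 (h3 c h.mem (not_le.1 hc)))
      rcases lt_or_eq_of_le hcd with h6 | h6
      · exact (ih c' hc'b d h5 c h6).1 (ih' d h2 h4 c h h6)
      · rw [h6]; exact h5

theorem good_iff (hC : CSeq C)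
    (hS : ∀ b, IsSuccLimit b → S b → ∀ c < b, LimPt (C b) c → S c) {b : K}
    (hb : IsSuccLimit b) (hSb : S b) (ih : ∀ c < b, CohAt C S c) {c : K} (hc : Gd C S b c)
    {x : K} (hx : x < c) : Rho C S x c ↔ Rho C S x b := by
  have claim := good_claim hC hS hb hSb ih
  constructor
  · intro h
    exact Rho.lt x b c hb hSb hc h
  · intro h
    cases h with
    | sc _ _ h => exact absurd h (not_covBy_of_limit hb)
    | st _ _ c h _ => exact absurd h (not_covBy_of_limit hb)
    | lc _ _ _ _ h => exact claim c hc x h hx
    | lt _ _ e _ _ h h' =>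
      have heb := hC.sub b hb e h.mem
      have hcb := hC.sub b hb c hc.mem
      rcases lt_trichotomy e c with h1 | h1 | h1
      · exact (ih c hcb e (claim c hc e h h1) x (Rho.lt' hC e x h')).1 h'
      · rw [h1] at h'; exact h'
      · exact (ih e heb c (claim e h c hc h1) x hx).2 h'

theorem rho_coh (hC : CSeq C)
    (hS : ∀ b, IsSuccLimit b → S b → ∀ c < b, LimPt (C b) c → S c) :
    ∀ b, CohAt C S b := by
  intro b
  induction b using WellFoundedLT.induction with
  | _ b ih =>
    intro a hab x hxa
    have hsucc : ∀ c, c ⋖ b → ∀ x, x < c → (Rho C S x c ↔ Rho C S x b) := by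
      intro c hc x hx
      constructor
      · intro h
        exact Rho.st x b c hc h
      · intro h
        cases h with
        | sc _ _ h => exact absurd hc.lt (h.2 hx)
        | st _ _ c' h h' =>
          have : c' = c := le_antisymm (hc.le_of_lt h.lt) (h.le_of_lt hc.lt)
          rwa [this] at h'
        | lc _ _ hb _ _ => exact absurd hc (not_covBy_of_limit hb)
        | lt _ _ _ hb _ _ _ => exact absurd hc (not_covBy_of_limit hb)
    cases hab with
    | sc _ _ h => exact hsucc a h x hxa
    | st _ _ c h h' =>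
      have hac := Rho.lt' hC c a h'
      rw [← hsucc c h x (hxa.trans hac)]
      exact ih c h.lt a h' x hxa
    | lc _ _ hb hSb h => exact good_iff hC hS hb hSb ih h hxa
    | lt _ _ c hb hSb h h' =>
      have hac := Rho.lt' hC c a h'
      rw [← good_iff hC hS hb hSb ih h (hxa.trans hac)]
      exact ih c (hC.sub b hb c h.mem) a h' x hxa

theorem rho_mono (hC : CSeq C) {S' : K → Prop} (hSS : ∀ b, S b → S' b) :
    ∀ b a, Rho C S a b → Rho C S' a b := by
  intro b
  induction b using WellFoundedLT.induction with
  | _ b ih =>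
    have hG : IsSuccLimit b → ∀ c, Gd C S b c → Gd C S' b c := by
      intro hb c
      induction c using WellFoundedLT.induction with
      | _ c ih' =>
        intro h
        have hcb := hC.sub b hb c h.mem
        cases h with
        | mn _ _ h1 h2 => exact Gd.mn b c h1 h2
        | ac _ _ h1 h2 => exact Gd.ac b c h1 h2
        | nx _ _ d h1 h2 h3 h4 h5 => exact Gd.nx b c d h1 h2 h3 (ih' d h2 h4) (ih c hcb d h5)
    intro a h
    cases h with
    | sc _ _ h => exact Rho.sc b a h
    | st _ _ c h h' => exact Rho.st a b c h (ih c h.lt a h')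
    | lc _ _ hb hSb h => exact Rho.lc b a hb (hSS b hSb) (hG hb a h)
    | lt _ _ c hb hSb h h' =>
      exact Rho.lt a b c hb (hSS b hSb) (hG hb c h) (ih c (hC.sub b hb c h.mem) a h')

theorem rho_small (hC : CSeq C) {m : Cardinal.{u}} (hm : ℵ₀ ≤ m)
    (hS : ∀ b, IsSuccLimit b → S b → #(C b) ≤ m) : ∀ b, #{a | Rho C S a b} ≤ m := by
  classical
  intro b
  induction b using WellFoundedLT.induction with
  | _ b ih =>
    by_cases h1 : ∃ c, c ⋖ b
    · obtain ⟨c, hc⟩ := h1
      have hsub : {a | Rho C S a b} ⊆ {a | Rho C S a c} ∪ {c} := by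
        intro a h
        cases h with
        | sc _ _ h => exact Or.inr (le_antisymm (hc.le_of_lt h.lt) (h.le_of_lt hc.lt))
        | st _ _ c' h h' =>
          have : c' = c := le_antisymm (hc.le_of_lt h.lt) (h.le_of_lt hc.lt)
          rw [this] at h'
          exact Or.inl h'
        | lc _ _ hb _ _ => exact absurd hc (not_covBy_of_limit hb)
        | lt _ _ _ hb _ _ _ => exact absurd hc (not_covBy_of_limit hb)
      refine (mk_le_mk_of_subset hsub).trans ((mk_union_le _ _).trans ?_)
      rw [mk_singleton]
      exact add_le_of_le hm (ih c hc.lt) (one_le_aleph0.trans hm)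
    · push Not at h1
      by_cases h2 : IsSuccLimit b ∧ S b
      · obtain ⟨hb, hSb⟩ := h2
        have hsub : {a | Rho C S a b} ⊆ ⋃ c : C b, ({a | Rho C S a c.1} ∪ {c.1}) := by
          intro a h
          cases h with
          | sc _ _ h => exact absurd h (h1 _)
          | st _ _ c' h h' => exact absurd h (h1 _)
          | lc _ _ _ _ h => exact mem_iUnion.2 ⟨⟨a, h.mem⟩, Or.inr rfl⟩
          | lt _ _ c _ _ h h' => exact mem_iUnion.2 ⟨⟨c, h.mem⟩, Or.inl h'⟩
        refine (mk_le_mk_of_subset hsub).trans ((mk_iUnion_le _).trans ?_)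
        refine mul_le_of_le hm (hS b hb hSb) (ciSup_le' ?_)
        intro c
        refine (mk_union_le _ _).trans ?_
        rw [mk_singleton]
        exact add_le_of_le hm (ih c.1 (hC.sub b hb c.1 c.2)) (one_le_aleph0.trans hm)
      · have : {a | Rho C S a b} = ∅ := by
          refine eq_empty_of_forall_notMem ?_
          intro a h
          cases h with
          | sc _ _ h => exact h1 _ h
          | st _ _ c' h h' => exact h1 _ h
          | lc _ _ hb hSb _ => exact h2 ⟨hb, hSb⟩
          | lt _ _ _ hb hSb _ _ => exact h2 ⟨hb, hSb⟩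
        rw [this, mk_eq_zero]
        exact zero_le

/-- every pair is caught -/
theorem rho_exhaust {N : Type u} [LinearOrder N] {S : N → K → Prop} (hC : CSeq C)
    (hmono : ∀ i j, i ≤ j → ∀ b, S i b → S j b) (hex : ∀ b, IsSuccLimit b → ∃ i, S i b)
    [Nonempty N] : ∀ b a : K, a < b → ∃ i, Rho C (S i) a b := by
  intro b
  induction b using WellFoundedLT.induction with
  | _ b ih =>
    intro a hab
    by_cases h1 : ∃ c, c ⋖ b
    · obtain ⟨c, hc⟩ := h1
      rcases lt_or_eq_of_le (hc.le_of_lt hab) with h2 | h2
      · obtain ⟨i, hi⟩ := ih c hc.lt a h2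
        exact ⟨i, Rho.st a b c hc hi⟩
      · exact ⟨Classical.arbitrary N, h2 ▸ Rho.sc b c hc⟩
    · push Not at h1
      have hb : IsSuccLimit b := ⟨fun hm => absurd (hm hab.le) (not_le.2 hab), fun c => h1 c⟩
      have hG : ∀ c ∈ C b, ∃ i, Gd C (S i) b c := by
        intro c
        induction c using WellFoundedLT.induction with
        | _ c ih' =>
          intro hc
          have hcb := hC.sub b hb c hc
          by_cases hmin : ∀ x ∈ C b, c ≤ x
          · exact ⟨Classical.arbitrary N, Gd.mn b c hc hmin⟩
          · by_cases hlim : LimPt (C b) c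
            · exact ⟨Classical.arbitrary N, Gd.ac b c hc hlim⟩
            · push Not at hmin
              obtain ⟨w, hw, hwc⟩ := hmin
              have hbd : ∃ x, x < c ∧ ∀ y ∈ C b, y < c → y ≤ x := by
                by_contra hcon
                refine hlim ⟨⟨w, hwc⟩, fun x hx => ?_⟩
                by_contra hcon2
                refine hcon ⟨x, hx, fun y hy hyc => ?_⟩
                by_contra hyx
                exact hcon2 ⟨y, hy, not_le.1 hyx, hyc⟩
              obtain ⟨z, ⟨hzc, hz⟩, hzmin⟩ := WellFounded.has_min (wellFounded_lt (α := K))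
                {x | x < c ∧ ∀ y ∈ C b, y < c → y ≤ x} hbd
              have hzC : z ∈ C b := by
                by_contra hzC
                refine hzC (hC.clo b hb z (hzc.trans hcb) ⟨⟨w, ?_⟩, fun x hx => ?_⟩)
                · exact lt_of_le_of_ne (hz w hw hwc) (fun h => hzC (h ▸ hw))
                · by_contra hcon
                  refine hzmin x ⟨hx.trans hzc, fun y hy hyc => ?_⟩ hx
                  by_contra hyx
                  refine hcon ⟨y, hy, not_le.1 hyx, ?_⟩
                  exact lt_of_le_of_ne (hz y hy hyc) (fun h => hzC (h ▸ hy))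
              obtain ⟨i, hi⟩ := ih' z hzc hzC
              obtain ⟨j, hj⟩ := ih c hcb z hzc
              refine ⟨max i j, Gd.nx b c z hc hzc ?_ ?_
                (rho_mono hC (hmono j _ (le_max_right i j)) c z hj)⟩
              · intro x hx hzx
                by_contra hxc
                exact absurd hzx (not_lt.2 (hz x hx (not_le.1 hxc)))
              · -- monotonicity of goodness
                have hGm : ∀ c, Gd C (S i) b c → Gd C (S (max i j)) b c := by
                  intro c
                  induction c using WellFoundedLT.induction with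
                  | _ c ih'' =>
                    intro h
                    cases h with
                    | mn _ _ h1 h2 => exact Gd.mn b c h1 h2
                    | ac _ _ h1 h2 => exact Gd.ac b c h1 h2
                    | nx _ _ d h1 h2 h3 h4 h5 =>
                      exact Gd.nx b c d h1 h2 h3 (ih'' d h2 h4)
                        (rho_mono hC (hmono i _ (le_max_left i j)) c d h5)
                exact hGm z hi
      obtain ⟨c, hc, hac⟩ := hC.unb b hb a hab
      have hcb := hC.sub b hb c hc
      obtain ⟨i, hi⟩ := hG c hc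
      obtain ⟨j, hj⟩ := ih c hcb a hac
      obtain ⟨k, hk⟩ := hex b hb
      have hGm : ∀ m, i ≤ m → ∀ c, Gd C (S i) b c → Gd C (S m) b c := by
        intro m him c
        induction c using WellFoundedLT.induction with
        | _ c ih'' =>
          intro h
          cases h with
          | mn _ _ h1 h2 => exact Gd.mn b c h1 h2
          | ac _ _ h1 h2 => exact Gd.ac b c h1 h2
          | nx _ _ d h1 h2 h3 h4 h5 =>
            exact Gd.nx b c d h1 h2 h3 (ih'' d h2 h4) (rho_mono hC (hmono i _ him) c d h5)
      have h1 : i ≤ max i (max j k) := le_max_left _ _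
      have h2 : j ≤ max i (max j k) := (le_max_left _ _).trans (le_max_right _ _)
      have h3 : k ≤ max i (max j k) := (le_max_right _ _).trans (le_max_right _ _)
      exact ⟨max i (max j k), Rho.lt a b c hb (hmono k _ h3 b hk) (hGm _ h1 c hi)
        (rho_mono hC (hmono j _ h2) c a hj)⟩

end Pool.Agent.SG
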