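import Pool.Agent.SG.Core

open Cardinal Set

universe u

namespace Pool.Agent.SG

variable {κ : Cardinal.{u}} {V : Type u} {G : SimpleGraph V}

theorem Bad.compl (h : Bad κ G) : Bad κ Gᶜ :=
  ⟨fun S hS => h.2 S ((SimpleGraph.isClique_compl G).1 hS),
    fun S hS => h.1 S ((SimpleGraph.isIndepSet_compl G).1 hS)⟩

theorem Bad.clique_lt (h : Bad κ G) {S : Set V} (hS : G.IsClique S) : #S < κ :=
  ne_of_subset (P := fun S : Set V => G.IsClique S) (fun _ hS _ hT => hS.subset hT) h.1 hS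

theorem Bad.indep_lt (h : Bad κ G) {S : Set V} (hS : G.IsIndepSet S) : #S < κ :=
  h.compl.clique_lt ((SimpleGraph.isClique_compl G).2 hS)

/-- a well-ordering with small initial segments -/
theorem exists_order (hV : #V = κ) :
    ∃ (_ : LinearOrder V) (_ : WellFoundedLT V), ∀ a : V, #(Iio a) < κ := by
  obtain ⟨o, w, h⟩ := exists_ord_eq_type_lt V
  exact ⟨o, w, fun a => hV ▸ mk_Iio_lt a h⟩

theorem core_set (hκ : κ.IsRegular) [LinearOrder V] [WellFoundedLT V]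
    (hs : ∀ a : V, #(Iio a) < κ) (hbad : Bad κ G) (B : Set V) (hB : #B = κ)
    (hC : ∀ u ∈ B, ∀ v ∈ B, ∀ x ∈ B, u < v → v < x → G.Adj u x → G.Adj v x → G.Adj u v) :
    HasSouslin κ := by
  refine core hκ (V := B) ?_ (le_of_eq hB.symm) (G.comap Subtype.val) ?_ ?_
  · intro a
    refine lt_of_le_of_lt ?_ (hs a.1)
    refine mk_le_of_injective (f := fun x : Iio a => (⟨x.1.1, x.2⟩ : Iio a.1)) ?_
    intro x y h
    have h' := Subtype.ext_iff.1 h
    exact Subtype.ext (Subtype.ext h')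
  · constructor
    · intro S hS
      have h1 : #S = #(Subtype.val '' S : Set V) := (mk_image_eq Subtype.val_injective).symm
      rw [h1]
      refine hbad.1 _ ?_
      rintro _ ⟨a, ha, rfl⟩ _ ⟨b, hb, rfl⟩ hab
      exact hS ha hb (fun h => hab (congrArg Subtype.val h))
    · intro S hS
      have h1 : #S = #(Subtype.val '' S : Set V) := (mk_image_eq Subtype.val_injective).symm
      rw [h1]
      refine hbad.2 _ ?_
      rintro _ ⟨a, ha, rfl⟩ _ ⟨b, hb, rfl⟩ hab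
      exact hS ha hb (fun h => hab (congrArg Subtype.val h))
  · intro u v x huv hvx hux hvx'
    exact hC u.1 u.2 v.1 v.2 x.1 x.2 huv hvx hux hvx'

/-- if non-adjacent vertices of a set of size `κ` have few common neighbours in it, there is a
Souslin tree -/
theorem thin_on (hκ : κ.IsRegular) (hV : #V = κ) (hbad : Bad κ G) {A : Set V} (hA : #A = κ)
    (h : ∀ u ∈ A, ∀ v ∈ A, u ≠ v → ¬ G.Adj u v → #{x | x ∈ A ∧ G.Adj u x ∧ G.Adj v x} < κ) :
    HasSouslin κ := by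
  classical
  obtain ⟨_, _, hs⟩ := exists_order hV
  let f : V → V → Set V := fun u v =>
    {x | u ∈ A ∧ v ∈ A ∧ u ≠ v ∧ ¬ G.Adj u v ∧ x ∈ A ∧ G.Adj u x ∧ G.Adj v x}
  have hf : ∀ u v, #(f u v) < κ := by
    intro u v
    by_cases h' : u ∈ A ∧ v ∈ A ∧ u ≠ v ∧ ¬ G.Adj u v
    · obtain ⟨h1, h2, h3, h4⟩ := h'
      refine lt_of_le_of_lt (mk_le_mk_of_subset ?_) (h u h1 v h2 h3 h4)
      rintro x ⟨_, _, _, _, h5⟩
      exact h5
    · have : f u v = ∅ := by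
        refine eq_empty_of_forall_notMem ?_
        rintro x ⟨h1, h2, h3, h4, _⟩
        exact h' ⟨h1, h2, h3, h4⟩
      rw [this, mk_eq_zero]
      exact lt_of_lt_of_le aleph0_pos hκ.aleph0_le
  obtain ⟨B, hBA, hBκ, hB⟩ := greedy hκ hs (fun S => ⋃ u ∈ S, ⋃ v ∈ S, f u v)
    (fun S hS => small_biUnion hκ hS fun u _ => small_biUnion hκ hS fun v _ => hf u v) hA
  refine core_set hκ hs hbad B hBκ ?_
  intro u hu v hv x hx huv hvx hux hvx'
  by_contra hn
  exact hB x hx (mem_iUnion₂.2 ⟨u, ⟨hu, huv.trans hvx⟩, mem_iUnion₂.2 ⟨v, ⟨hv, hvx⟩,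
    ⟨hBA hu, hBA hv, huv.ne, hn, hBA hx, hux, hvx'⟩⟩⟩)

/-- in the absence of Souslin trees, a non-adjacent pair with many common neighbours -/
theorem exists_nonadj (hκ : κ.IsRegular) (hn : ¬ HasSouslin κ) (hV : #V = κ) (hbad : Bad κ G)
    {A : Set V} (hA : #A = κ) : ∃ u ∈ A, ∃ v ∈ A, u ≠ v ∧ ¬ G.Adj u v ∧
      #{x | x ∈ A ∧ G.Adj u x ∧ G.Adj v x} = κ := by
  by_contra hc
  push Not at hc
  refine hn (thin_on hκ hV hbad hA ?_)
  intro u hu v hv huv hadj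
  refine lt_of_le_of_ne ?_ (hc u hu v hv huv hadj)
  rw [← hA]
  exact mk_le_mk_of_subset fun x hx => hx.1

/-- in the absence of Souslin trees, an adjacent pair with many common non-neighbours -/
theorem exists_adj (hκ : κ.IsRegular) (hn : ¬ HasSouslin κ) (hV : #V = κ) (hbad : Bad κ G)
    {A : Set V} (hA : #A = κ) : ∃ u ∈ A, ∃ v ∈ A, G.Adj u v ∧
      #{x | x ∈ A ∧ x ≠ u ∧ x ≠ v ∧ ¬ G.Adj u x ∧ ¬ G.Adj v x} = κ := by
  obtain ⟨u, hu, v, hv, huv, hadj, h⟩ := exists_nonadj hκ hn hV hbad.compl hA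
  refine ⟨u, hu, v, hv, ?_, ?_⟩
  · by_contra hc
    exact hadj ((SimpleGraph.compl_adj G u v).2 ⟨huv, hc⟩)
  · rw [← h]
    congr 2
    ext x
    simp only [mem_ofPred_eq, SimpleGraph.compl_adj]
    constructor
    · rintro ⟨h1, h2, h3, h4, h5⟩
      exact ⟨h1, ⟨fun h => h2 h.symm, h4⟩, ⟨fun h => h3 h.symm, h5⟩⟩
    · rintro ⟨h1, ⟨h2, h4⟩, ⟨h3, h5⟩⟩
      exact ⟨h1, fun h => h2 h.symm, fun h => h3 h.symm, h4, h5⟩

end Pool.Agent.SG
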