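import Pool.Agent.SG.Cograph

open Cardinal Set SimpleGraph

universe u v

namespace Pool.Agent.SG

/-- no induced cycle with four vertices -/
def C4F {W : Type v} (H : SimpleGraph W) : Prop :=
  ∀ a b c d : W, H.Adj a b → H.Adj b c → H.Adj c d → H.Adj d a → a ≠ c → b ≠ d →
    H.Adj a c ∨ H.Adj b d

theorem p4f_iff {W : Type v} (H : SimpleGraph W) : IsEmpty (pathGraph 4 ↪g H) ↔ P4F H := by
  constructor
  · intro he a b c d hab hbc hcd
    by_contra hc
    push Not at hc
    obtain ⟨hac, hbd, had⟩ := hc
    have hne1 : a ≠ c := by rintro rfl; exact had hcd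
    have hne2 : b ≠ d := by rintro rfl; exact had hab
    have hne3 : a ≠ d := by rintro rfl; exact hac hcd.symm
    have hinj : Function.Injective ![a, b, c, d] := by
      intro i j hij
      fin_cases i <;> fin_cases j <;>
        simp_all [hab.ne, hbc.ne, hcd.ne, hab.ne', hbc.ne', hcd.ne', hne1.symm, hne2.symm,
          hne3.symm]
    have hmap : ∀ i j, H.Adj (![a, b, c, d] i) (![a, b, c, d] j) ↔ (pathGraph 4).Adj i j := by
      intro i j
      fin_cases i <;> fin_cases j <;>
        simp [pathGraph_adj, hab, hbc, hcd, hab.symm, hbc.symm, hcd.symm, hac, hbd, had,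
          H.adj_comm c a, H.adj_comm d b, H.adj_comm d a]
    exact he.false ⟨⟨_, hinj⟩, fun {i j} => hmap i j⟩
  · intro h
    refine ⟨fun e => ?_⟩
    have h01 : H.Adj (e 0) (e 1) := e.map_adj_iff.2 (by simp [pathGraph_adj])
    have h12 : H.Adj (e 1) (e 2) := e.map_adj_iff.2 (by simp [pathGraph_adj])
    have h23 : H.Adj (e 2) (e 3) := e.map_adj_iff.2 (by simp [pathGraph_adj])
    rcases h _ _ _ _ h01 h12 h23 with h1 | h1 | h1
    · have := e.map_adj_iff.1 h1
      simp [pathGraph_adj] at this
    · have := e.map_adj_iff.1 h1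
      simp [pathGraph_adj] at this
    · have := e.map_adj_iff.1 h1
      simp [pathGraph_adj] at this

theorem c4f_iff {W : Type v} (H : SimpleGraph W) : IsEmpty (cycleGraph 4 ↪g H) ↔ C4F H := by
  constructor
  · intro he a b c d hab hbc hcd hda hne1 hne2
    by_contra hc
    push Not at hc
    obtain ⟨hac, hbd⟩ := hc
    have hinj : Function.Injective ![a, b, c, d] := by
      intro i j hij
      fin_cases i <;> fin_cases j <;>
        simp_all [hab.ne, hbc.ne, hcd.ne, hab.ne', hbc.ne', hcd.ne', hne1.symm, hne2.symm,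
          hda.ne, hda.ne']
    have hmap : ∀ i j, H.Adj (![a, b, c, d] i) (![a, b, c, d] j) ↔ (cycleGraph 4).Adj i j := by
      have hc02 : ¬ (cycleGraph 4).Adj 0 2 := by decide
      have hc13 : ¬ (cycleGraph 4).Adj 1 3 := by decide
      have hc20 : ¬ (cycleGraph 4).Adj 2 0 := by decide
      have hc31 : ¬ (cycleGraph 4).Adj 3 1 := by decide
      have hc01 : (cycleGraph 4).Adj 0 1 := by decide
      have hc12 : (cycleGraph 4).Adj 1 2 := by decide
      have hc23 : (cycleGraph 4).Adj 2 3 := by decide
      have hc30 : (cycleGraph 4).Adj 3 0 := by decide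
      intro i j
      fin_cases i <;> fin_cases j <;>
        simp [hab, hbc, hcd, hab.symm, hbc.symm, hcd.symm, hac, hbd, hda, hc02, hc13, hc20,
          hc31, hc01, hc12, hc23, hc30, hc01.symm, hc12.symm, hc23.symm, hc30.symm,
          hda.symm, H.adj_comm c a, H.adj_comm d b]
    exact he.false ⟨⟨_, hinj⟩, fun {i j} => hmap i j⟩
  · intro h
    refine ⟨fun e => ?_⟩
    have h01 : H.Adj (e 0) (e 1) := e.map_adj_iff.2 (by decide)
    have h12 : H.Adj (e 1) (e 2) := e.map_adj_iff.2 (by decide)
    have h23 : H.Adj (e 2) (e 3) := e.map_adj_iff.2 (by decide)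
    have h30 : H.Adj (e 3) (e 0) := e.map_adj_iff.2 (by decide)
    rcases h _ _ _ _ h01 h12 h23 h30 (fun h => by simpa using e.injective h)
      (fun h => by simpa using e.injective h) with h1 | h1
    · exact absurd (e.map_adj_iff.1 h1) (by decide)
    · exact absurd (e.map_adj_iff.1 h1) (by decide)

theorem p4f_cycle : P4F (cycleGraph 4) := by
  unfold P4F
  decide

theorem elim_cycle : Elim (cycleGraph 4) Set.univ := by
  have h0 : Elim (cycleGraph 4) (∅ : Set (Fin 4)) := Elim.empty
  have h1 : Elim (cycleGraph 4) (insert (1 : Fin 4) (insert 3 ∅)) :=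
    Elim.dominatingNonEdge ∅ 1 3 h0 (notMem_empty _) (notMem_empty _) (by decide) (by decide)
      (fun s hs => absurd hs (notMem_empty s))
  have h2 : Elim (cycleGraph 4) (insert (0 : Fin 4) (insert 2 (insert 1 (insert 3 ∅)))) := by
    refine Elim.dominatingNonEdge _ 0 2 h1 ?_ ?_ (by decide) (by decide) ?_
    · simp
    · simp
    · rintro s (rfl | rfl | hs)
      · decide
      · decide
      · exact absurd hs (notMem_empty s)
  have h3 : (insert (0 : Fin 4) (insert 2 (insert 1 (insert 3 ∅))) : Set (Fin 4)) = Set.univ := by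
    ext x
    fin_cases x <;> simp
  rwa [h3] at h2

variable {κ : Cardinal.{u}}

/-- in a `C₄`-free bad graph two non-adjacent vertices have few common neighbours -/
theorem few_common {V : Type u} {G : SimpleGraph V} (hbad : Bad κ G) (h : C4F G) (u v : V)
    (huv : u ≠ v) (hadj : ¬ G.Adj u v) : #(G.commonNeighbors u v) < κ := by
  refine hbad.clique_lt ?_
  intro x hx y hy hxy
  rcases h u x v y hx.1 hx.2.symm hy.2 hy.1.symm huv hxy with h1 | h1
  · exact absurd h1 hadj
  · exact h1

/-- a Souslin tree gives a bad graph without induced paths and cycles with four vertices -/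
theorem graph_of_souslin (h : HasSouslin κ) : ∃ (V : Type u) (G : SimpleGraph V), #V = κ ∧
    Bad κ G ∧ P4F G ∧ C4F G := by
  classical
  obtain ⟨T, po, htree, hht, hC, hA⟩ := h
  have hκT : κ ≤ #T := by
    have hex : ∀ i : κ.ord.ToType, ∃ t : T, nodeHeight htree t =
        Ordinal.typein (α := κ.ord.ToType) (· < ·) i := by
      intro i
      rw [hht]
      exact Ordinal.typein_lt_self i
    choose f hf using hex
    have hinj : Function.Injective f := by
      intro i j hij
      have h1 := hf i
      rw [hij, hf j] at h1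
      exact (Ordinal.typein_injective (α := κ.ord.ToType) (· < ·) h1).symm
    have := mk_le_of_injective hinj
    rwa [mk_ord_toType] at this
  obtain ⟨p, hp⟩ := le_mk_iff_exists_set.1 hκT
  have hbelow : ∀ t x y : T, x < t → y < t → x ≠ y → x < y ∨ y < x := by
    intro t x y hx hy hxy
    have := htree t
    rcases trichotomous_of (· < ·) (⟨x, hx⟩ : {s : T // s < t}) ⟨y, hy⟩ with h1 | h1 | h1
    · exact Or.inl h1
    · exact absurd (congrArg Subtype.val h1) hxy
    · exact Or.inr h1
  let G : SimpleGraph p :=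
    { Adj := fun x y => x.1 < y.1 ∨ y.1 < x.1
      symm := ⟨fun x y h => Or.symm h⟩
      loopless := ⟨fun x h => by
        rcases h with h | h
        · exact lt_irrefl _ h
        · exact lt_irrefl _ h⟩ }
  -- the middle vertex of an induced path of length two is below both ends
  have hmid : ∀ a b c : p, G.Adj a b → G.Adj b c → ¬ G.Adj a c → a ≠ c → b.1 < a.1 ∧ b.1 < c.1 := by
    intro a b c hab hbc hac hne
    have hne' : a.1 ≠ c.1 := fun h => hne (Subtype.ext h)
    rcases hab with h1 | h1
    · rcases hbc with h2 | h2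
      · exact absurd (Or.inl (h1.trans h2)) hac
      · exact absurd (hbelow b.1 a.1 c.1 h1 h2 hne') hac
    · rcases hbc with h2 | h2
      · exact ⟨h1, h2⟩
      · exact absurd (Or.inr (h2.trans h1)) hac
  refine ⟨p, G, hp, ⟨?_, ?_⟩, ?_, ?_⟩
  · intro S hS
    have h1 : #S = #(Subtype.val '' S : Set T) := (mk_image_eq Subtype.val_injective).symm
    rw [h1]
    refine hC _ ?_
    rintro _ ⟨a, ha, rfl⟩ _ ⟨b, hb, rfl⟩ hab
    rcases hS ha hb (fun h => hab (congrArg Subtype.val h)) with h | h
    · exact Or.inl h.le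
    · exact Or.inr h.le
  · intro S hS
    have h1 : #S = #(Subtype.val '' S : Set T) := (mk_image_eq Subtype.val_injective).symm
    rw [h1]
    refine hA _ ?_
    rintro _ ⟨a, ha, rfl⟩ _ ⟨b, hb, rfl⟩ hab hle
    exact hS ha hb (fun h => hab (congrArg Subtype.val h)) (Or.inl (lt_of_le_of_ne hle hab))
  · intro a b c d hab hbc hcd
    by_contra hc
    push Not at hc
    obtain ⟨hac, hbd, had⟩ := hc
    have hne1 : a ≠ c := by rintro rfl; exact had hcd
    have hne2 : b ≠ d := by rintro rfl; exact had hab
    exact lt_asymm (hmid a b c hab hbc hac hne1).2 (hmid b c d hbc hcd hbd hne2).1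
  · intro a b c d hab hbc hcd _ hne1 hne2
    by_contra hc
    push Not at hc
    obtain ⟨hac, hbd⟩ := hc
    exact lt_asymm (hmid a b c hab hbc hac hne1).2 (hmid b c d hbc hcd hbd hne2).1

end Pool.Agent.SG
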